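import Pool.Agent.Ffp.Key
import Pool.Agent.Ff5.Cls

/-!
Many classes modulo `h g ^ (2 p)`, odd characteristic.
-/

set_option autoImplicit false

namespace Pool.Agent.Ffp

open Polynomial Pool.Agent.Ff2 Pool.Agent.Ff3 Pool.Agent.Ff4 Pool.Agent.Ff5
  UniqueFactorizationMonoid

variable {K : Type} [Field K] [Fintype K]

/-- A family of classes modulo `m₀`, in terms of `p`-th powers modulo `g ^ (2 p)`. -/
structure Fam (p D s₁ : ℕ) (g m₀ : K[X]) where
  w : (Fin s₁ → K) → K[X]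
  c : (Fin s₁ → K) → K[X]
  inj : Function.Injective w
  degw : ∀ u, (w u).natDegree < g.natDegree
  cong : ∀ u, g ^ (2 * p) ∣ c u - w u ^ p
  cop : ∀ u, IsCoprime (c u) m₀
  big : ∀ u (P : K[X]), Irreducible P → m₀ ∣ P - c u → D + 1 + 2 * p * g.natDegree ≤ P.natDegree

/-- First case: `k deg g` is odd. -/
theorem fam_odd (p : ℕ) [Fact p.Prime] [CharP K p] (hp2 : p ≠ 2) {L D s₁ : ℕ} {g h A : K[X]}
    (hg : g.Monic) (hA0 : A ≠ 0) (hAL : ∀ a : K[X], a ≠ 0 → a.natDegree ≤ L → a ∣ A)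
    (hAD : ∀ u : K[X], u.natDegree ≤ D → derivative u ≠ 0 → derivative u ∣ A)
    (hDL : D ≤ 2 * L + 1)
    (hr : ∀ t : K[X], Irreducible t → t ∣ g → ¬ t ∣ A ∨ t ^ 2 ∣ h)
    (hcard : g.natDegree + (L + 1) < (L + 1) * Fintype.card K ^ (L + 1))
    (hdeg : A.natDegree + (L + 1) + s₁ + L + 1 ≤ g.natDegree)
    (ho : Odd (g.natDegree * ((Fintype.card K - 1) / 2))) :
    ∃ m₀ : K[X], m₀ ∣ h * g ^ (2 * p) ∧ g ^ (2 * p) ∣ m₀ ∧ Nonempty (Fam p D s₁ g m₀) := by
  classical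
  have hpp := (Fact.out : p.Prime)
  obtain ⟨S, hS1, hS2, hS3⟩ := primes_in g A 1 hg.ne_zero
  have hSi : ∀ t ∈ S, Irreducible t := fun t ht => (hS1 t ht).1
  obtain ⟨r, hre⟩ : ∃ r : K[X], r = ∏ t ∈ S, t := ⟨_, rfl⟩
  have hr1 : ∀ t ∈ S, t ∣ r := fun t ht => hre ▸ Finset.dvd_prod_of_mem (fun t => t) ht
  have hr2 : ∀ z : K[X], Irreducible z → z ∣ r → ∃ t ∈ S, Associated z t := fun z hz h1 =>
    dvd_prod S hSi z hz (hre ▸ h1)
  have hr3 : r ∣ A := by
    have := prod_pow_dvd S hSi hS2 1 A fun t ht => by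
      rw [pow_one]
      exact (hS1 t ht).2.2.1
    rwa [pow_one, ← hre] at this
  have hr4 : r ∣ g := by
    have := prod_pow_dvd S hSi hS2 1 g fun t ht => by
      rw [pow_one]
      exact (hS1 t ht).2.1
    rwa [pow_one, ← hre] at this
  have hr5 : r ^ 2 ∣ h := by
    have := prod_pow_dvd S hSi hS2 2 h fun t ht => by
      rcases hr t (hSi t ht) (hS1 t ht).2.1 with h1 | h1
      · exact absurd (hS1 t ht).2.2.1 h1
      · exact h1
    rwa [← hre] at this
  have hr0 : r ≠ 0 := ne_zero_of_dvd_ne_zero hg.ne_zero hr4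
  obtain ⟨y, hy⟩ := exists_beta (0 : K[X]) 1 S
    (fun t ht => ⟨hSi t ht, fun h1 => (hSi t ht).not_isUnit (isUnit_of_dvd_one h1)⟩) hS2
  obtain ⟨b, hb⟩ : ∃ b : K[X], b = 0 + 1 ^ 2 * y := ⟨_, rfl⟩
  rw [← hb] at hy
  have hb1 : IsCoprime r b := isCoprime_of_irreducible_dvd (fun h0 => hr0 h0.1)
    fun z hz h1 h2 => by
      obtain ⟨t, ht, ha⟩ := hr2 z hz h1
      exact (hy t ht).1 (ha.symm.dvd.trans h2)
  have hb2 : IsCoprime r (derivative b) := isCoprime_of_irreducible_dvd (fun h0 => hr0 h0.1)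
    fun z hz h1 h2 => by
      obtain ⟨t, ht, ha⟩ := hr2 z hz h1
      exact (hy t ht).2 (ha.symm.dvd.trans h2)
  clear hre
  obtain ⟨W, hW0, hWw, hWr, hWa⟩ := strip r _ A hA0 le_rfl
  have hWd : W.natDegree + r.natDegree ≤ A.natDegree := by
    rw [← natDegree_mul hW0 hr0]
    exact natDegree_le_of_dvd (hWr.mul_dvd hWw hr3) hA0
  obtain ⟨T, hT1, hT2, hT3⟩ := primes_out g A hg.ne_zero (L + 1)
    (fun t ht htd => hAL t ht.ne_zero (by omega))
  have hTc : T.card < Fintype.card K ^ (L + 1) := by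
    have : (L + 1) * T.card < (L + 1) * Fintype.card K ^ (L + 1) := by omega
    exact lt_of_mul_lt_mul_left this (Nat.zero_le _)
  obtain ⟨s, hs1, hs2⟩ := family (L + 1) s₁ (by omega) T r 1 hr0 (by simp)
    (fun t ht => ⟨(hT2 t ht).1, fun _ => (hT2 t ht).2.2⟩) hTc isCoprime_one_left
  have hs0 : ∀ u, s u ≠ 0 := by
    intro u h0
    have := (hs2 u).1
    rw [h0, natDegree_zero] at this
    omega
  have hcg : ∀ u, IsCoprime g (W * s u) := by
    intro u
    refine isCoprime_of_irreducible_dvd (fun h0 => hg.ne_zero h0.1) fun t ht h1 h2 => ?_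
    rcases hS3 t ht h1 with h3 | h3 | ⟨t', ht', ha⟩
    · rcases ht.prime.dvd_or_dvd h2 with h4 | h4
      · exact h3 (h4.trans hWw)
      · obtain ⟨t', ht', ha⟩ := hT3 t ht h1 h3
        exact (hs2 u).2.2.2 t' ht' (ha.symm.dvd.trans h4)
    · exact ht.not_isUnit (isUnit_of_dvd_one h3.dvd)
    · have h5 : t ∣ r := ha.dvd.trans (hr1 t' ht')
      rcases ht.prime.dvd_or_dvd h2 with h4 | h4
      · exact ht.not_isUnit (hWr.isUnit_of_dvd' h4 h5)
      · exact (hs2 u).2.2.1 t ht h5 h4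
  have hdw : ∀ u, (W * s u).natDegree = W.natDegree + (r.natDegree + (L + 1 + s₁)) := by
    intro u
    rw [natDegree_mul hW0 (hs0 u), (hs2 u).1]
  have hg1 : g ^ (2 * p) = g * g ^ (2 * p - 1) := by
    rw [← pow_succ', Nat.sub_add_cancel]
    have := hpp.pos
    omega
  have hcb : ∀ u, IsCoprime ((W * s u) ^ p + b * g ^ (2 * p)) g := by
    intro u
    have h1 : b * g ^ (2 * p) = g * (b * g ^ (2 * p - 1)) := by
      rw [hg1]
      ring
    rw [h1]
    exact (((hcg u).symm.pow_left (m := p)).add_mul_left_left _)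
  refine ⟨r ^ 2 * g ^ (2 * p), mul_dvd_mul_right hr5 _, dvd_mul_left _ _,
    ⟨⟨fun u => W * s u, fun u => (W * s u) ^ p + b * g ^ (2 * p), ?_, ?_, ?_, ?_, ?_⟩⟩⟩
  · intro u v h
    exact hs1 (mul_left_cancel₀ hW0 h)
  · intro u
    show (W * s u).natDegree < _
    rw [hdw]
    omega
  · intro u
    exact ⟨b, by ring⟩
  · intro u
    exact (((hcb u).of_isCoprime_of_dvd_right hr4).pow_right).mul_right ((hcb u).pow_right)
  · intro u P hP hdv
    exact key_odd p hp2 hg (mul_ne_zero hW0 (hs0 u))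
      (fun a ha haL har => (hWa a (hAL a ha haL) har).mul_right _)
      (fun v hv hv0 hvr => (hWa _ (hAD v hv hv0) hvr).mul_right _) hDL (by rw [hdw]; omega) ho
      hb1 hb2 hP hdv

/-- Second case: `k deg g` is even. -/
theorem fam_even (p : ℕ) [Fact p.Prime] [CharP K p] (hp2 : p ≠ 2) {L D s₁ n : ℕ}
    {g h A π : K[X]} (hg : g.Monic) (hA0 : A ≠ 0)
    (hAL : ∀ a : K[X], a ≠ 0 → a.natDegree ≤ L → a ∣ A)
    (hAD : ∀ u : K[X], u.natDegree ≤ D → derivative u ≠ 0 → derivative u ∣ A)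
    (hDL : D ≤ 2 * L + 1) (hp : Irreducible π) (hph : π ^ 2 ∣ h)
    (hr : ∀ t : K[X], Irreducible t → t ∣ g → ¬ t ∣ A ∨ t ^ 2 ∣ h)
    (hcard : g.natDegree + (L + 1) < (L + 1) * Fintype.card K ^ (L + 1)) (hn0 : n ≠ 0)
    (hn : g.natDegree + A.natDegree + n < Fintype.card K ^ n)
    (hdeg : A.natDegree + (n + L) + (L + 1) + s₁ + L + 1 ≤ g.natDegree)
    (he : Even (g.natDegree * ((Fintype.card K - 1) / 2))) :
    ∃ m₀ : K[X], m₀ ∣ h * g ^ (2 * p) ∧ g ^ (2 * p) ∣ m₀ ∧ Nonempty (Fam p D s₁ g m₀) := by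
  classical
  have hpp := (Fact.out : p.Prime)
  obtain ⟨S, hS1, hS2, hS3⟩ := primes_in g A π hg.ne_zero
  have hSi : ∀ t ∈ S, Irreducible t := fun t ht => (hS1 t ht).1
  have hSp : ∀ t ∈ S, ¬ t ∣ π := fun t ht h1 =>
    (hS1 t ht).2.2.2 ((hSi t ht).associated_of_dvd hp h1)
  obtain ⟨r, hre⟩ : ∃ r : K[X], r = ∏ t ∈ S, t := ⟨_, rfl⟩
  have hr1 : ∀ t ∈ S, t ∣ r := fun t ht => hre ▸ Finset.dvd_prod_of_mem (fun t => t) ht
  have hr2 : ∀ z : K[X], Irreducible z → z ∣ r → ∃ t ∈ S, Associated z t := fun z hz h1 =>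
    dvd_prod S hSi z hz (hre ▸ h1)
  have hr3 : r ∣ A := by
    have := prod_pow_dvd S hSi hS2 1 A fun t ht => by
      rw [pow_one]
      exact (hS1 t ht).2.2.1
    rwa [pow_one, ← hre] at this
  have hr4 : r ∣ g := by
    have := prod_pow_dvd S hSi hS2 1 g fun t ht => by
      rw [pow_one]
      exact (hS1 t ht).2.1
    rwa [pow_one, ← hre] at this
  have hr5 : r ^ 2 ∣ h := by
    have := prod_pow_dvd S hSi hS2 2 h fun t ht => by
      rcases hr t (hSi t ht) (hS1 t ht).2.1 with h1 | h1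
      · exact absurd (hS1 t ht).2.2.1 h1
      · exact h1
    rwa [← hre] at this
  have hr0 : r ≠ 0 := ne_zero_of_dvd_ne_zero hg.ne_zero hr4
  have hpr : IsCoprime π r := by
    refine (hp.coprime_iff_not_dvd).2 fun h1 => ?_
    obtain ⟨t, ht, ha⟩ := hr2 π hp h1
    exact hSp t ht ha.symm.dvd
  have hr6 : (π * r) ^ 2 ∣ h := by
    rw [mul_pow]
    exact (IsCoprime.pow hpr).mul_dvd hph hr5
  obtain ⟨y, hy⟩ := exists_beta π π S (fun t ht => ⟨hSi t ht, hSp t ht⟩) hS2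
  have hb1 : IsCoprime r (π + π ^ 2 * y) := isCoprime_of_irreducible_dvd (fun h0 => hr0 h0.1)
    fun z hz h1 h2 => by
      obtain ⟨t, ht, ha⟩ := hr2 z hz h1
      exact (hy t ht).1 (ha.symm.dvd.trans h2)
  have hb2 : IsCoprime r (derivative (π + π ^ 2 * y)) :=
    isCoprime_of_irreducible_dvd (fun h0 => hr0 h0.1) fun z hz h1 h2 => by
      obtain ⟨t, ht, ha⟩ := hr2 z hz h1
      exact (hy t ht).2 (ha.symm.dvd.trans h2)
  clear hre
  obtain ⟨W, hW0, hWw, hWpr, hWa⟩ := strip (π * r) _ A hA0 le_rfl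
  have hWp : IsCoprime W π := hWpr.of_mul_right_left
  have hWr : IsCoprime W r := hWpr.of_mul_right_right
  -- the auxiliary prime
  obtain ⟨p₁, hp₁, hp₁n, hp₁g, hp₁W, hp₁p⟩ : ∃ p₁ : K[X], Irreducible p₁ ∧ p₁.natDegree ≤ n ∧
      ¬ p₁ ∣ g ∧ ¬ p₁ ∣ A ∧ ¬ p₁ ∣ π := by
    by_cases hpn : π.natDegree ≤ n
    · have h0 : g * A * π ≠ 0 :=
        mul_ne_zero (mul_ne_zero hg.ne_zero hA0) hp.ne_zero
      obtain ⟨p₁, h1, h2, h3⟩ := exists_prime (g * A * π) h0 n hn0 (by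
        rw [natDegree_mul (mul_ne_zero hg.ne_zero hA0) hp.ne_zero,
          natDegree_mul hg.ne_zero hA0]
        omega)
      refine ⟨p₁, h1, h2, fun h => h3 ?_, fun h => h3 ?_, fun h => h3 (h.mul_left _)⟩
      · exact (h.mul_right _).mul_right _
      · exact (h.mul_left _).mul_right _
    · have h0 : g * A ≠ 0 := mul_ne_zero hg.ne_zero hA0
      obtain ⟨p₁, h1, h2, h3⟩ := exists_prime (g * A) h0 n hn0 (by
        rw [natDegree_mul hg.ne_zero hA0]
        omega)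
      refine ⟨p₁, h1, h2, fun h => h3 (h.mul_right _), fun h => h3 (h.mul_left _), fun h => ?_⟩
      have h4 := natDegree_eq_of_degree_eq (degree_eq_degree_of_associated
        (h1.associated_of_dvd hp h))
      omega
  -- the fourth root modulo the auxiliary prime
  obtain ⟨σ₀, hσ1, hσ2⟩ := root_mod p p₁ W (π * g ^ (2 * p)) hp₁ (fun h => hp₁W (h.trans hWw))
  have hσ3 : ¬ p₁ ∣ σ₀ := by
    intro h
    have h1 : p₁ ∣ (W * σ₀) ^ p := dvd_pow (h.mul_left _) hpp.ne_zero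
    have h2 : p₁ ∣ π * g ^ (2 * p) := (dvd_add_right h1).1 hσ2
    rcases hp₁.prime.dvd_or_dvd h2 with h3 | h3
    · exact hp₁p h3
    · exact hp₁g (hp₁.prime.dvd_of_dvd_pow h3)
  -- the cofactor `a`
  obtain ⟨a, ha0, haL, hap, hac⟩ : ∃ a : K[X], a ≠ 0 ∧ a.natDegree ≤ L ∧
      (¬ π ∣ a → L + 1 ≤ π.natDegree) ∧ (∀ t : K[X], Irreducible t → t ∣ a → Associated t π) := by
    by_cases h : π.natDegree ≤ L
    · exact ⟨π, hp.ne_zero, h, fun h1 => absurd dvd_rfl h1,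
        fun t ht h1 => ht.associated_of_dvd hp h1⟩
    · refine ⟨1, one_ne_zero, by simp, fun _ => by omega, fun t ht h1 => ?_⟩
      exact absurd (isUnit_of_dvd_one h1) ht.not_isUnit
  have har : IsCoprime a r := by
    refine isCoprime_of_irreducible_dvd (fun h0 => ha0 h0.1) fun t ht h1 h2 => ?_
    exact hp.not_isUnit (hpr.isUnit_of_dvd' dvd_rfl ((hac t ht h1).symm.dvd.trans h2))
  have hWar : IsCoprime W (a * r) := by
    refine IsCoprime.mul_right ?_ hWr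
    refine isCoprime_of_irreducible_dvd (fun h0 => ha0 h0.2) fun t ht h1 h2 => ?_
    exact hp.not_isUnit (hWp.isUnit_of_dvd' ((hac t ht h2).symm.dvd.trans h1) dvd_rfl)
  have har0 : a * r ≠ 0 := mul_ne_zero ha0 hr0
  have hWd : W.natDegree + (a * r).natDegree ≤ A.natDegree := by
    rw [← natDegree_mul hW0 har0]
    exact natDegree_le_of_dvd (hWar.mul_dvd hWw (har.mul_dvd (hAL a ha0 haL) hr3)) hA0
  have hp₁ar : IsCoprime p₁ (a * r) := by
    refine (hp₁.coprime_iff_not_dvd).2 fun h1 => ?_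
    rcases hp₁.prime.dvd_or_dvd h1 with h2 | h2
    · exact hp₁p (hac p₁ hp₁ h2).dvd
    · exact hp₁g (h2.trans hr4)
  have hA0 : p₁ * (a * r) ≠ 0 := mul_ne_zero hp₁.ne_zero har0
  have hAd : (p₁ * (a * r)).natDegree = p₁.natDegree + (a * r).natDegree :=
    natDegree_mul hp₁.ne_zero har0
  -- `σ`
  obtain ⟨σ, hσd, hσA, hσdv⟩ : ∃ σ : K[X], σ.natDegree ≤ (p₁ * (a * r)).natDegree ∧
      IsCoprime σ (p₁ * (a * r)) ∧ p₁ ∣ σ - σ₀ := by
    obtain ⟨u, v, huv⟩ := hp₁ar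
    obtain ⟨τ, hτ⟩ : ∃ τ : K[X], τ = σ₀ * (v * (a * r)) + u * p₁ := ⟨_, rfl⟩
    have hτ1 : τ = σ₀ + p₁ * (u * (1 - σ₀)) := by
      rw [hτ]
      linear_combination σ₀ * huv
    have hτ2 : τ = 1 + (a * r) * (v * (σ₀ - 1)) := by
      rw [hτ]
      linear_combination huv
    have hmod := EuclideanDomain.mod_add_div τ (p₁ * (a * r))
    have hpos : (p₁ * (a * r)).natDegree ≠ 0 := by
      have := hp₁.natDegree_pos
      omega
    refine ⟨τ % (p₁ * (a * r)), (natDegree_mod_lt _ hpos).le, ?_, ?_⟩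
    · refine isCoprime_of_irreducible_dvd (fun h0 => hA0 h0.2) fun t ht h1 h2 => ?_
      have h3 : t ∣ τ := by
        rw [← hmod]
        exact dvd_add h1 (h2.mul_right _)
      rcases ht.prime.dvd_or_dvd h2 with h4 | h4
      · apply hσ3
        rw [hτ1] at h3
        exact (ht.associated_of_dvd hp₁ h4).symm.dvd.trans
          ((dvd_add_left (h4.mul_right _)).1 h3)
      · rw [hτ2] at h3
        exact ht.not_isUnit (isUnit_of_dvd_one ((dvd_add_left (h4.mul_right _)).1 h3))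
    · exact ⟨u * (1 - σ₀) - (a * r) * (τ / (p₁ * (a * r))), by
        linear_combination hmod + hτ1⟩
  -- the family
  obtain ⟨T, hT1, hT2, hT3⟩ := primes_out g A hg.ne_zero (L + 1)
    (fun t ht htd => hAL t ht.ne_zero (by omega))
  have hTc : (insert π T).card < Fintype.card K ^ (L + 1) := by
    have h1 := Finset.card_insert_le π T
    have h2 : (L + 1) * (T.card + 1) < (L + 1) * Fintype.card K ^ (L + 1) := by
      rw [mul_add, mul_one]
      omega
    exact lt_of_le_of_lt h1 (lt_of_mul_lt_mul_left h2 (Nat.zero_le _))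
  obtain ⟨s, hs1, hs2⟩ := family (L + 1) s₁ (by omega) (insert π T) (p₁ * (a * r)) σ hA0
    hσd (by
      intro t ht
      rcases Finset.mem_insert.1 ht with rfl | ht
      · exact ⟨hp, fun h => hap fun h1 => h ((h1.mul_right _).mul_left _)⟩
      · exact ⟨(hT2 t ht).1, fun _ => (hT2 t ht).2.2⟩) hTc hσA
  have hs0 : ∀ u, s u ≠ 0 := by
    intro u h0
    have := (hs2 u).1
    rw [h0, natDegree_zero] at this
    omega
  have hps : ∀ u, ¬ π ∣ s u := fun u => (hs2 u).2.2.2 π (Finset.mem_insert_self _ _)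
  have hcp : ∀ u, IsCoprime π (W * s u) := by
    intro u
    refine (hp.coprime_iff_not_dvd).2 fun h => ?_
    rcases hp.prime.dvd_or_dvd h with h1 | h1
    · exact hp.not_isUnit (hWp.isUnit_of_dvd' h1 dvd_rfl)
    · exact hps u h1
  have hcg : ∀ u, IsCoprime g (W * s u) := by
    intro u
    refine isCoprime_of_irreducible_dvd (fun h0 => hg.ne_zero h0.1) fun t ht h1 h2 => ?_
    rcases hS3 t ht h1 with h3 | h3 | ⟨t', ht', ha⟩
    · rcases ht.prime.dvd_or_dvd h2 with h4 | h4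
      · exact h3 (h4.trans hWw)
      · obtain ⟨t', ht', ha⟩ := hT3 t ht h1 h3
        exact (hs2 u).2.2.2 t' (Finset.mem_insert_of_mem ht') (ha.symm.dvd.trans h4)
    · exact hp.not_isUnit ((hcp u).isUnit_of_dvd' dvd_rfl (h3.symm.dvd.trans h2))
    · have h5 : t ∣ r := ha.dvd.trans (hr1 t' ht')
      rcases ht.prime.dvd_or_dvd h2 with h4 | h4
      · exact ht.not_isUnit (hWr.isUnit_of_dvd' h4 h5)
      · exact (hs2 u).2.2.1 t ht ((h5.mul_left _).mul_left _) h4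
  have hdw : ∀ u, (W * s u).natDegree = W.natDegree + (p₁.natDegree + (a * r).natDegree +
      (L + 1 + s₁)) := by
    intro u
    rw [natDegree_mul hW0 (hs0 u), (hs2 u).1, hAd]
  have hp₁s : ∀ u, p₁ ∣ (W * s u) ^ p + π * g ^ (2 * p) := by
    intro u
    obtain ⟨x, hx⟩ := (hs2 u).2.1
    obtain ⟨z, hz⟩ := hσdv
    have h1 : s u = σ₀ + p₁ * (z + (a * r) * x) := by
      linear_combination hx + hz
    have h2 : p₁ ∣ (W * s u) ^ p - (W * σ₀) ^ p := by
      have h3 : W * s u - W * σ₀ ∣ (W * s u) ^ p - (W * σ₀) ^ p := sub_dvd_pow_sub_pow _ _ p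
      refine dvd_trans ?_ h3
      exact ⟨W * (z + (a * r) * x), by rw [h1]; ring⟩
    have h3 := dvd_add h2 hσ2
    have h4 : (W * s u) ^ p - (W * σ₀) ^ p + ((W * σ₀) ^ p + π * g ^ (2 * p)) =
        (W * s u) ^ p + π * g ^ (2 * p) := by ring
    rwa [h4] at h3
  have hg1 : g ^ (2 * p) = g * g ^ (2 * p - 1) := by
    rw [← pow_succ', Nat.sub_add_cancel]
    have := hpp.pos
    omega
  have hcb : ∀ u, IsCoprime ((W * s u) ^ p + (π + π ^ 2 * y) * g ^ (2 * p)) g := by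
    intro u
    have h1 : (π + π ^ 2 * y) * g ^ (2 * p) = g * ((π + π ^ 2 * y) * g ^ (2 * p - 1)) := by
      rw [hg1]
      ring
    rw [h1]
    exact (((hcg u).symm.pow_left (m := p)).add_mul_left_left _)
  have hcb2 : ∀ u, IsCoprime ((W * s u) ^ p + (π + π ^ 2 * y) * g ^ (2 * p)) π := by
    intro u
    have h1 : (π + π ^ 2 * y) * g ^ (2 * p) = π * ((1 + π * y) * g ^ (2 * p)) := by ring
    rw [h1]
    exact (((hcp u).symm.pow_left (m := p)).add_mul_left_left _)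
  refine ⟨(π * r) ^ 2 * g ^ (2 * p), mul_dvd_mul_right hr6 _, dvd_mul_left _ _,
    ⟨⟨fun u => W * s u, fun u => (W * s u) ^ p + (π + π ^ 2 * y) * g ^ (2 * p), ?_, ?_, ?_, ?_, ?_⟩⟩⟩
  · intro u v h
    exact hs1 (mul_left_cancel₀ hW0 h)
  · intro u
    show (W * s u).natDegree < _
    rw [hdw]
    omega
  · intro u
    exact ⟨π + π ^ 2 * y, by ring⟩
  · intro u
    refine IsCoprime.mul_right (IsCoprime.pow_right ?_) (hcb u).pow_right
    exact (hcb2 u).mul_right ((hcb u).of_isCoprime_of_dvd_right hr4)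
  · intro u P hP hdv
    refine key_even p hp2 hg (mul_ne_zero hW0 (hs0 u))
      (fun a ha haL h1 h2 => (hWa a (hAL a ha haL) (h1.mul_right h2)).mul_right _)
      (fun v hv hv0 h1 h2 => (hWa _ (hAD v hv hv0) (h1.mul_right h2)).mul_right _) hDL
      (by rw [hdw]; omega) he hp hp₁ (by omega) (hp₁s u) hb1 hb2 hP hdv

end Pool.Agent.Ffp
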