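import Pool.Agent.Ffp.Cls

/-!
Many classes modulo `h g ^ (2 p)`.
-/

set_option autoImplicit false

namespace Pool.Agent.Ffp

open Polynomial Pool.Agent.Ff2 Pool.Agent.Ff3 Pool.Agent.Ff4

variable {K : Type} [Field K] [Fintype K]

/-- From `m₀` to the modulus `h g ^ (2 p)`. -/
theorem fam_cls (p : ℕ) [Fact p.Prime] [CharP K p] {D s₁ : ℕ} {g h m₀ : K[X]} (hg : g.Monic)
    (hh : h ≠ 0) (hm₀ : m₀ ∣ h * g ^ (2 * p)) (hm₁ : g ^ (2 * p) ∣ m₀) (F : Fam p D s₁ g m₀) :
    ∃ C : Finset K[X], C.card = Fintype.card K ^ s₁ ∧ ∀ c ∈ C,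
      c.natDegree < (h * g ^ (2 * p)).natDegree ∧ IsCoprime c (h * g ^ (2 * p)) ∧
      ∀ P : K[X], Irreducible P → h * g ^ (2 * p) ∣ P - c →
        D + 1 + 2 * p * g.natDegree ≤ P.natDegree := by
  classical
  have hpp := (Fact.out : p.Prime)
  have hM0 : h * g ^ (2 * p) ≠ 0 := mul_ne_zero hh (hg.pow _).ne_zero
  have hgd : (g ^ (2 * p)).natDegree = 2 * p * g.natDegree := natDegree_pow g _
  have hgpos' : g.natDegree ≤ p * g.natDegree := Nat.le_mul_of_pos_left _ hpp.pos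
  have h2p : 2 * p * g.natDegree = p * g.natDegree + p * g.natDegree := by ring
  have hMd : (h * g ^ (2 * p)).natDegree = h.natDegree + 2 * p * g.natDegree := by
    rw [natDegree_mul hh (hg.pow _).ne_zero, hgd]
  choose t ht using fun u => lift_unit (F.c u) m₀ (h * g ^ (2 * p)) (F.cop u) hM0
  obtain ⟨c, hc⟩ : ∃ c : (Fin s₁ → K) → K[X], ∀ u, c u = (F.c u + m₀ * t u) % (h * g ^ (2 * p)) :=
    ⟨_, fun u => rfl⟩
  have hmod : ∀ u, h * g ^ (2 * p) ∣ F.c u + m₀ * t u - c u := by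
    intro u
    have := EuclideanDomain.mod_add_div (F.c u + m₀ * t u) (h * g ^ (2 * p))
    exact ⟨(F.c u + m₀ * t u) / (h * g ^ (2 * p)), by rw [hc]; linear_combination -this⟩
  have hmodw : ∀ u, g ^ (2 * p) ∣ c u - F.w u ^ p := by
    intro u
    have h1 : g ^ (2 * p) ∣ F.c u + m₀ * t u - c u := (dvd_mul_left _ _).trans (hmod u)
    have h2 := dvd_sub (dvd_add (F.cong u) (hm₁.mul_right (t u))) h1
    have h3 : F.c u - F.w u ^ p + m₀ * t u - (F.c u + m₀ * t u - c u) = c u - F.w u ^ p := by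
      ring
    rwa [h3] at h2
  have hinj : Function.Injective c := by
    intro u v huv
    have h1 := hmodw u
    rw [huv] at h1
    have h2 := dvd_sub (hmodw v) h1
    have h3 : c v - F.w v ^ p - (c v - F.w u ^ p) = F.w u ^ p - F.w v ^ p := by ring
    rw [h3] at h2
    have h4 : (F.w u ^ p - F.w v ^ p).natDegree < (g ^ (2 * p)).natDegree := by
      have a1 : (F.w u ^ p).natDegree = p * (F.w u).natDegree := natDegree_pow _ p
      have a2 : (F.w v ^ p).natDegree = p * (F.w v).natDegree := natDegree_pow _ p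
      have a3 : p * (F.w u).natDegree ≤ p * g.natDegree := Nat.mul_le_mul_left _ (F.degw u).le
      have a4 : p * (F.w v).natDegree ≤ p * g.natDegree := Nat.mul_le_mul_left _ (F.degw v).le
      have a5 := F.degw u
      refine (natDegree_sub_le _ _).trans_lt (max_lt ?_ ?_) <;> omega
    have h5 := eq_zero_of_dvd_of_natDegree_lt h2 h4
    exact F.inj (pow_inj p (sub_eq_zero.1 h5))
  refine ⟨Finset.univ.image c, ?_, ?_⟩
  · rw [Finset.card_image_of_injective _ hinj, Finset.card_univ, Fintype.card_fun,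
      Fintype.card_fin]
  · intro x hx
    obtain ⟨u, _, rfl⟩ := Finset.mem_image.1 hx
    have hgpos : 0 < g.natDegree := lt_of_le_of_lt (Nat.zero_le _) (F.degw u)
    refine ⟨?_, ?_, fun P hP hdv => ?_⟩
    · rw [hc]
      exact natDegree_mod_lt _ (by omega)
    · obtain ⟨y, hy⟩ := hmod u
      have h1 : c u = F.c u + m₀ * t u + (h * g ^ (2 * p)) * (-y) := by
        linear_combination -hy
      rw [h1]
      exact (ht u).add_mul_left_left _
    · apply F.big u P hP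
      have h1 : m₀ ∣ P - c u := hm₀.trans hdv
      have h2 : m₀ ∣ F.c u + m₀ * t u - c u := hm₀.trans (hmod u)
      have h3 := dvd_add (dvd_sub h1 h2) (dvd_mul_right m₀ (t u))
      have h4 : P - c u - (F.c u + m₀ * t u - c u) + m₀ * t u = P - F.c u := by ring
      rwa [h4] at h3

theorem clsp (p : ℕ) [Fact p.Prime] [CharP K p] (hp2 : p ≠ 2) {L D s₁ n : ℕ}
    {g h A : K[X]} (hg : g.Monic) (hA0 : A ≠ 0)
    (hAL : ∀ a : K[X], a ≠ 0 → a.natDegree ≤ L → a ∣ A)
    (hAD : ∀ u : K[X], u.natDegree ≤ D → derivative u ≠ 0 → derivative u ∣ A)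
    (hDL : D ≤ 2 * L + 1) (hh : h ≠ 0)
    (hr : ∀ t : K[X], Irreducible t → t ∣ g → ¬ t ∣ A ∨ t ^ 2 ∣ h)
    (hcard : g.natDegree + (L + 1) < (L + 1) * Fintype.card K ^ (L + 1)) (hn0 : n ≠ 0)
    (hn : g.natDegree + A.natDegree + n < Fintype.card K ^ n)
    (hdeg : A.natDegree + (n + L) + (L + 1) + s₁ + L + 1 ≤ g.natDegree)
    (hcase : Odd (g.natDegree * ((Fintype.card K - 1) / 2)) ∨ ¬ Squarefree h) :
    ∃ C : Finset K[X], C.card = Fintype.card K ^ s₁ ∧ ∀ c ∈ C,
      c.natDegree < (h * g ^ (2 * p)).natDegree ∧ IsCoprime c (h * g ^ (2 * p)) ∧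
      ∀ P : K[X], Irreducible P → h * g ^ (2 * p) ∣ P - c →
        D + 1 + 2 * p * g.natDegree ≤ P.natDegree := by
  rcases Nat.even_or_odd (g.natDegree * ((Fintype.card K - 1) / 2)) with he | ho
  · have hsq : ¬ Squarefree h := by
      rcases hcase with h1 | h1
      · exact absurd he (Nat.not_even_iff_odd.2 h1)
      · exact h1
    unfold Squarefree at hsq
    push Not at hsq
    obtain ⟨x, hx, hxu⟩ := hsq
    have hx0 : x ≠ 0 := by
      rintro rfl
      rw [mul_zero] at hx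
      exact hh (zero_dvd_iff.1 hx)
    obtain ⟨π, hπ, hπx⟩ := WfDvdMonoid.exists_irreducible_factor hxu hx0
    have hph : π ^ 2 ∣ h := by
      rw [sq]
      exact (mul_dvd_mul hπx hπx).trans hx
    obtain ⟨m₀, h1, h2, ⟨F⟩⟩ := fam_even (s₁ := s₁) p hp2 hg hA0 hAL hAD hDL hπ hph hr hcard hn0
      hn hdeg he
    exact fam_cls p hg hh h1 h2 F
  · obtain ⟨m₀, h1, h2, ⟨F⟩⟩ := fam_odd (s₁ := s₁) p hp2 hg hA0 hAL hAD hDL hr hcard
      (by omega) ho
    exact fam_cls p hg hh h1 h2 F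

end Pool.Agent.Ffp
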