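import Pool.Agent.Ffp.Par

/-!
The core in odd characteristic: the parity of the number of irreducible factors of
`w ^ p + f g ^ (2 p)`.
-/

set_option autoImplicit false

namespace Pool.Agent.Ffp

open Polynomial Pool.Agent.Ff2

/-- The resultant with `f' g ^ M`. -/
theorem resM (R : Type) [CommRing R] [IsDomain R] (f g p : R[X]) (d e M : ℕ) (hd : 1 ≤ d)
    (hf : f.Monic) (hg : g.Monic) (hfd : f.natDegree = d) (hge : g.natDegree = e)
    (hp : p.natDegree + (d - 1) < d + M * e) :
    resultant (f * g ^ M + derivative f * p) (derivative f * g ^ M) (d + M * e) (d - 1 + M * e) =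
      resultant f (derivative f) d (d - 1) *
        (resultant g (derivative f) e (d - 1) *
          resultant (f * g ^ M + derivative f * p) g (d + M * e) e) ^ M := by
  have hg4 : (g ^ M).Monic := hg.pow M
  have hg4d : (g ^ M).natDegree = M * e := by rw [hg.natDegree_pow, hge]
  have hfg : (f * g ^ M).Monic := hf.mul hg4
  have hfgd : (f * g ^ M).natDegree = d + M * e := by rw [hf.natDegree_mul hg4, hfd, hg4d]
  have hf' : (derivative f).natDegree ≤ d - 1 := by
    have := natDegree_derivative_le f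
    rw [hfd] at this
    exact this
  have hsmall : (derivative f * p).natDegree < d + M * e := by
    have h1 : (derivative f * p).natDegree ≤ (derivative f).natDegree + p.natDegree :=
      natDegree_mul_le
    omega
  obtain ⟨F, hF⟩ : ∃ F, F = f * g ^ M + derivative f * p := ⟨_, rfl⟩
  have hFd : F.natDegree ≤ d + M * e := by
    rw [hF]
    exact (natDegree_add_le _ _).trans (max_le hfgd.le hsmall.le)
  have hFc : F.coeff (d + M * e) = 1 := by
    rw [hF, coeff_add, coeff_eq_zero_of_natDegree_lt hsmall, add_zero, ← hfgd]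
    exact hfg.coeff_natDegree
  have h1 : resultant F (derivative f * g ^ M) (d + M * e) (d - 1 + M * e) =
      resultant F (derivative f) (d + M * e) (d - 1) * resultant F (g ^ M) (d + M * e) (M * e) :=
    res_mul_right_le F (derivative f) (g ^ M) (d + M * e) (d - 1) (M * e) hFd hFc hf' hg4d.le
  have h2 : resultant F (g ^ M) (d + M * e) (M * e) = resultant F g (d + M * e) e ^ M := by
    have := resultant_pow_right F g (d + M * e) M hFd (by
      rw [hg.leadingCoeff, one_pow]; exact one_ne_zero)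
    rw [hg4d, hge] at this
    exact this
  have h3 : resultant F (derivative f) (d + M * e) (d - 1) =
      resultant (f * g ^ M) (derivative f) (d + M * e) (d - 1) := by
    rw [hF]
    exact resultant_add_mul_left (f * g ^ M) (derivative f) p (d + M * e) (d - 1) hp.le hf'
  have h4 : resultant (f * g ^ M) (derivative f) (d + M * e) (d - 1) =
      resultant f (derivative f) d (d - 1) * resultant (g ^ M) (derivative f) (M * e) (d - 1) := by
    have := resultant_mul_left f (g ^ M) (derivative f) (d - 1) hf'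
    rw [hfd, hg4d] at this
    exact this
  have h5 : resultant (g ^ M) (derivative f) (M * e) (d - 1) =
      resultant g (derivative f) e (d - 1) ^ M := by
    have := resultant_pow_left g (derivative f) M (d - 1) (by
      rw [hg.leadingCoeff, one_pow]; exact one_ne_zero) hf'
    rw [hg4d, hge] at this
    exact this
  rw [← hF, h1, h2, h3, h4, h5, mul_pow]
  ring

/-- The sign. -/
theorem sign_eq (d e p : ℕ) (hp : Odd p) (hd : 1 ≤ d) :
    (-1 : ℤ) ^ ((d + 2 * p * e) * (d + 2 * p * e - 1) / 2) =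
      (-1) ^ e * (-1) ^ (d * (d - 1) / 2) := by
  obtain ⟨c, rfl⟩ : ∃ c, d = c + 1 := ⟨d - 1, by omega⟩
  obtain ⟨a, ha⟩ : ∃ a, (c + 1) * c = 2 * a :=
    (Nat.even_mul_succ_self c).two_dvd.imp fun a ha => by rw [mul_comm]; exact ha
  have h1 : (c + 1) * (c + 1 - 1) / 2 = a := by
    rw [Nat.add_sub_cancel, ha]
    omega
  have h2 : (c + 1 + 2 * p * e) * (c + 1 + 2 * p * e - 1) / 2 =
      a + p * e * (2 * c + 1) + 2 * (p * e) ^ 2 := by
    have h3 : c + 1 + 2 * p * e - 1 = c + 2 * p * e := by omega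
    rw [h3]
    have h4 : (c + 1 + 2 * p * e) * (c + 2 * p * e) =
        2 * (a + p * e * (2 * c + 1) + 2 * (p * e) ^ 2) := by
      calc (c + 1 + 2 * p * e) * (c + 2 * p * e)
          = (c + 1) * c + 2 * (p * e * (2 * c + 1) + 2 * (p * e) ^ 2) := by ring
        _ = _ := by rw [ha]; ring
    rw [h4]
    omega
  rw [h1, h2, pow_add, pow_add, pow_mul (-1 : ℤ) 2, neg_one_sq, one_pow, mul_one, mul_comm]
  congr 1
  rw [mul_comm p e, mul_assoc, pow_mul]
  rcases Nat.even_or_odd e with he | he
  · rw [he.neg_one_pow, one_pow]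
  · rw [he.neg_one_pow]
    exact (hp.mul ⟨c, rfl⟩).neg_one_pow

/-- The core: the parity of `w ^ p + f g ^ (2 p)`. -/
theorem core (K : Type) [Field K] [Fintype K] (p : ℕ) [Fact p.Prime] [CharP K p] (hp2 : p ≠ 2)
    (E : Type) [Field E] [Algebra K E] [IsAlgClosed E]
    (f g w : K[X]) (d e : ℕ) (hf : f.Monic) (hg : g.Monic) (hd1 : 1 ≤ d)
    (hd : f.natDegree = d) (he : g.natDegree = e) (he1 : 1 ≤ e) (hw : derivative f ∣ w)
    (hw0 : w ≠ 0) (hdeg : w.natDegree ≤ e) (s : E) (hpar : ParO K E f d s)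
    (hF : Irreducible (w ^ p + f * g ^ (2 * p))) :
    (-1 : E) ^ (d - 1) = (-1) ^ (e * ((Fintype.card K - 1) / 2)) * s := by
  have hp := (Fact.out : p.Prime)
  have hpodd : Odd p := hp.odd_of_ne_two hp2
  have hf'0 : derivative f ≠ 0 := by
    intro h
    rw [h] at hw
    exact hw0 (zero_dvd_iff.1 hw)
  -- the shape
  obtain ⟨w₁, hw₁⟩ := hw
  have hw₁0 : w₁ ≠ 0 := by
    rintro rfl
    exact hw0 (by rw [hw₁, mul_zero])
  obtain ⟨H, hH⟩ : ∃ H : K[X], H = w₁ * w ^ (p - 1) := ⟨_, rfl⟩
  have hwp : w ^ p = derivative f * H := by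
    rw [hH]
    calc w ^ p = w * w ^ (p - 1) := by rw [mul_comm, ← pow_succ, Nat.sub_add_cancel hp.one_le]
      _ = _ := by
        conv_lhs => rw [hw₁]
        conv_rhs => rw [hw₁]
        ring
  have hHd : H.natDegree ≤ p * e := by
    have h1 : (w ^ p).natDegree = p * w.natDegree := natDegree_pow w p
    have h2 : H ∣ w ^ p := ⟨derivative f, by rw [hwp, mul_comm]⟩
    exact (natDegree_le_of_dvd h2 (pow_ne_zero _ hw0)).trans
      (h1.le.trans (Nat.mul_le_mul_left _ hdeg))
  have hpe : 1 ≤ p * e := Nat.mul_pos hp.pos he1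
  have hHd2 : H.natDegree + (d - 1) < d + 2 * p * e := by
    have : 2 * p * e = p * e + p * e := by ring
    omega
  have hFe : w ^ p + f * g ^ (2 * p) = f * g ^ (2 * p) + derivative f * H := by
    rw [hwp]
    ring
  have hfg : (f * g ^ (2 * p)).Monic := hf.mul (hg.pow _)
  have hfgd : (f * g ^ (2 * p)).natDegree = d + 2 * p * e := by
    rw [hf.natDegree_mul (hg.pow _), hg.natDegree_pow, hd, he]
  have hsmall : (w ^ p).natDegree < (f * g ^ (2 * p)).natDegree := by
    rw [hfgd]
    have h1 : (w ^ p).natDegree = p * w.natDegree := natDegree_pow w p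
    have h2 : p * w.natDegree ≤ p * e := Nat.mul_le_mul_left _ hdeg
    have : 2 * p * e = p * e + p * e := by ring
    omega
  have hFm : (w ^ p + f * g ^ (2 * p)).Monic := hfg.add_of_right (degree_lt_degree hsmall)
  have hFd : (w ^ p + f * g ^ (2 * p)).natDegree = d + 2 * p * e := by
    rw [natDegree_add_eq_right_of_natDegree_lt hsmall, hfgd]
  -- derivative
  have hder : derivative (w ^ p + f * g ^ (2 * p)) = derivative f * g ^ (2 * p) := by
    have hc0 : (C (p : K) : K[X]) = 0 := by
      rw [CharP.cast_eq_zero, C_0]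
    rw [derivative_add, derivative_mul, derivative_pow, derivative_pow, hc0]
    have h2 : (C ((2 * p : ℕ) : K) : K[X]) = 0 := by
      rw [Nat.cast_mul, CharP.cast_eq_zero K p, mul_zero, C_0]
    rw [h2]
    ring
  have hres := resM K f g H d e (2 * p) hd1 hf hg hd he hHd2
  rw [← hFe] at hres
  have hN : d + 2 * p * e - 1 = d - 1 + 2 * p * e := by omega
  -- the parity data
  obtain ⟨zF, hzF0, hzF1, hzF2⟩ := par_irr K E (w ^ p + f * g ^ (2 * p)) (d + 2 * p * e) hFm hF hFd
  obtain ⟨z, hz0, hz1, hz2⟩ := hpar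
  rw [hder, hN, hres] at hzF1
  obtain ⟨U, hU⟩ : ∃ U : K, U = (resultant g (derivative f) e (d - 1) *
    resultant (w ^ p + f * g ^ (2 * p)) g (d + 2 * p * e) e) ^ p := ⟨_, rfl⟩
  have hUU : (resultant g (derivative f) e (d - 1) *
      resultant (w ^ p + f * g ^ (2 * p)) g (d + 2 * p * e) e) ^ (2 * p) = U ^ 2 := by
    rw [hU, ← pow_mul, mul_comm p 2]
  rw [hUU] at hzF1
  have hsg : ((-1 : K)) ^ ((d + 2 * p * e) * (d + 2 * p * e - 1) / 2) =
      (-1) ^ e * (-1) ^ (d * (d - 1) / 2) := by
    have := congrArg (fun x : ℤ => (x : K)) (sign_eq d e p hpodd hd1)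
    push_cast at this
    exact this
  rw [← hN, hsg] at hzF1
  have hkey : zF ^ 2 = (-1) ^ e * (z * algebraMap K E U) ^ 2 := by
    rw [hzF1, mul_pow, hz1]
    simp only [map_mul, map_pow, map_neg, map_one]
    ring
  have hUq : (algebraMap K E U) ^ Fintype.card K = algebraMap K E U := by
    rw [← map_pow, FiniteField.pow_card]
  have hU0 : algebraMap K E U ≠ 0 := by
    intro h0
    rw [h0] at hkey
    apply hzF0
    have : zF ^ 2 = 0 := by
      rw [hkey]
      ring
    exact pow_eq_zero_iff two_ne_zero |>.1 this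
  have hy0 : z * algebraMap K E U ≠ 0 := mul_ne_zero hz0 hU0
  obtain ⟨c, hc⟩ : ∃ c : E, zF = c * (z * algebraMap K E U) :=
    ⟨zF / (z * algebraMap K E U), by field_simp⟩
  have hc2 : c ^ 2 = (-1) ^ e := by
    rw [hc, mul_pow] at hkey
    exact mul_right_cancel₀ (pow_ne_zero 2 hy0) hkey
  have hc0 : c ≠ 0 := by
    rintro rfl
    exact hzF0 (by rw [hc, zero_mul])
  have hqodd : Odd (Fintype.card K) := by
    obtain ⟨n, _, hn⟩ := FiniteField.card K p
    rw [hn]
    exact hpodd.pow
  obtain ⟨t, ht⟩ := hqodd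
  have hcq : c ^ Fintype.card K = (-1) ^ (e * ((Fintype.card K - 1) / 2)) * c := by
    have h1 : (Fintype.card K - 1) / 2 = t := by omega
    rw [h1, ht, pow_succ, pow_mul, hc2, ← pow_mul]
  have hfin : zF ^ Fintype.card K =
      (-1) ^ (e * ((Fintype.card K - 1) / 2)) * s * zF := by
    rw [hc, mul_pow, mul_pow, hcq, hz2, hUq]
    ring
  rw [hzF2] at hfin
  have h1 := mul_right_cancel₀ hzF0 hfin
  have h2 : (-1 : E) ^ (d + 2 * p * e - 1) = (-1) ^ (d - 1) := by
    rw [hN, pow_add, show 2 * p * e = 2 * (p * e) by ring, pow_mul (-1 : E) 2, neg_one_sq, one_pow,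
      mul_one]
  rw [h2] at h1
  exact h1

end Pool.Agent.Ffp
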