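import Pool.Agent.Ffp.Pow
import Pool.Agent.Ff5.Fin

/-!
The statement for every finite field.
-/

set_option autoImplicit false

namespace Pool.Agent.Ffp

open Polynomial Pool.Agent.Ff2 Pool.Agent.Ff3 Pool.Agent.Ff4

/-- The gain: `n ^ 2` in characteristic two, `(n / log n) ^ (p / (p - 1))` in odd
characteristic `p`. -/
noncomputable def gain (p n : ℕ) : ℝ :=
  if p = 2 then (n : ℝ) ^ 2 else ((n : ℝ) / Real.log n) ^ ((p : ℝ) / (p - 1))

variable {K : Type} [Field K] [Fintype K]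

theorem card_two [CharP K 2] : ∃ k : ℕ, Fintype.card K = 2 ^ k := by
  obtain ⟨k, _, hk⟩ := FiniteField.card K 2
  exact ⟨k, hk⟩

theorem odd_card (p : ℕ) [Fact p.Prime] [CharP K p] (hp2 : p ≠ 2) : Odd (Fintype.card K) := by
  obtain ⟨k, _, hk⟩ := FiniteField.card K p
  rw [hk]
  exact ((Fact.out : p.Prime).odd_of_ne_two hp2).pow

/-- The general moduli in characteristic two. -/
theorem gen2 {k : ℕ} (hK : Fintype.card K = 2 ^ k) :
    ∃ δ : ℝ, 0 < δ ∧ ∃ N₀ : ℕ, ∀ g h : K[X], g.Monic → N₀ ≤ g.natDegree → h ≠ 0 →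
      (∀ t : K[X], Irreducible t → t ∣ g →
        g.natDegree ^ 2 ≤ Fintype.card K ^ t.natDegree ∨ t ^ 2 ∣ h) →
      (Odd (k * g.natDegree) ∨ ¬ Squarefree h) →
      ∃ C : Finset K[X], Fintype.card K ^ g.natDegree ≤ C.card ^ 2 ∧
        ∀ c ∈ C, c.natDegree < (h * g ^ 4).natDegree ∧ IsCoprime c (h * g ^ 4) ∧
          ∀ P : K[X], Irreducible P → h * g ^ 4 ∣ P - c →
            δ * (g.natDegree : ℝ) ^ 2 * (Fintype.card K : ℝ) ^ (g ^ 4).natDegree ≤
              (Fintype.card K : ℝ) ^ P.natDegree := by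
  have hq : 2 ≤ Fintype.card K := Fintype.one_lt_card
  have hq' : (2 : ℝ) ≤ Fintype.card K := by exact_mod_cast hq
  obtain ⟨N₀, hN₀⟩ := Ff5.main5 (K := K) hK (ε := 3 / 4) (by norm_num) (by norm_num)
  refine ⟨1 / 64, by norm_num, N₀ + 4, fun g h hg hgN hh hrough hcase => ?_⟩
  obtain ⟨C, hC, hC2⟩ := hN₀ g h hg (by omega) hh (fun t ht htg => by
    rcases hrough t ht htg with h1 | h1
    · exact Or.inl ((Nat.le_self_pow two_ne_zero _).trans h1)
    · exact Or.inr h1) hcase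
  have h4N : (4 : ℝ) ≤ g.natDegree := by
    have : 4 ≤ g.natDegree := by omega
    exact_mod_cast this
  refine ⟨C, ?_, fun c hc => ?_⟩
  · have h1 : ((Fintype.card K : ℝ) ^ g.natDegree) ≤ (C.card : ℝ) ^ 2 := by
      refine le_trans ?_ (pow_le_pow_left₀ (by positivity) hC 2)
      rw [← Real.rpow_natCast (((Fintype.card K : ℝ) ^ (g ^ 4).natDegree) ^ ((3 : ℝ) / 4 / 5)) 2,
        ← Real.rpow_mul (by positivity), ← Real.rpow_natCast, ← Real.rpow_natCast,
        ← Real.rpow_mul (by positivity)]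
      refine Real.rpow_le_rpow_of_exponent_le (by linarith) ?_
      rw [hg.natDegree_pow]
      push_cast
      linarith
    exact_mod_cast h1
  · obtain ⟨h6, h7, h8⟩ := hC2 c hc
    refine ⟨h6, h7, fun P hP hdv => ?_⟩
    have hex : ∃ j : ℕ, (1 - (3 / 4 : ℝ)) * ((Fintype.card K : ℝ) - 1) * g.natDegree <
        (Fintype.card K : ℝ) ^ j := pow_unbounded_of_one_lt _ (by linarith)
    classical
    obtain ⟨J, hJ⟩ : ∃ J, J = Nat.find hex := ⟨_, rfl⟩
    have hJ1 : (1 - (3 / 4 : ℝ)) * ((Fintype.card K : ℝ) - 1) * g.natDegree <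
        (Fintype.card K : ℝ) ^ J := hJ ▸ Nat.find_spec hex
    have hJ0 : J ≠ 0 := by
      intro h0
      rw [h0, pow_zero] at hJ1
      nlinarith
    have hJ2 : (Fintype.card K : ℝ) ^ (J - 1) ≤
        (1 - (3 / 4 : ℝ)) * ((Fintype.card K : ℝ) - 1) * g.natDegree :=
      not_lt.1 (Nat.find_min hex (by omega))
    obtain ⟨j, rfl⟩ : ∃ j, J = j + 1 := ⟨J - 1, by omega⟩
    rw [Nat.add_sub_cancel] at hJ2
    have h9 := h8 P hP hdv j hJ2
    have h10 : (g.natDegree : ℝ) ≤ 8 * (Fintype.card K : ℝ) ^ j := by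
      have e3 : (Fintype.card K : ℝ) ^ (j + 1) = Fintype.card K * (Fintype.card K : ℝ) ^ j := by
        ring
      rw [e3] at hJ1
      have e5 : (Fintype.card K : ℝ) * (g.natDegree / 8) ≤
          (1 - (3 / 4 : ℝ)) * ((Fintype.card K : ℝ) - 1) * g.natDegree := by
        nlinarith
      have e4 := le_of_mul_le_mul_left (e5.trans hJ1.le) (by linarith)
      linarith
    have h11 : (g.natDegree : ℝ) ^ 2 ≤ 64 * ((Fintype.card K : ℝ) ^ j) ^ 2 := by
      calc (g.natDegree : ℝ) ^ 2 ≤ (8 * (Fintype.card K : ℝ) ^ j) ^ 2 :=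
            pow_le_pow_left₀ (by positivity) h10 2
        _ = 64 * ((Fintype.card K : ℝ) ^ j) ^ 2 := by ring
    refine le_trans ?_ h9
    have h12 : (0 : ℝ) < (Fintype.card K : ℝ) ^ (g ^ 4).natDegree := by positivity
    nlinarith

theorem finp (F : Type) [Field F] [Fintype F] (p : ℕ) [CharP F p] :
    (∀ f : F[X], 0 < f.natDegree → ∃ δ : ℝ, 0 < δ ∧ ∀ n : ℕ, 2 ≤ n → ∃ c : F[X],
      IsCoprime c (f ^ n) ∧ ∀ P : F[X], Irreducible P → f ^ n ∣ P - c →
        δ * gain p n * (Fintype.card F : ℝ) ^ (f ^ n).natDegree ≤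
          (Fintype.card F : ℝ) ^ P.natDegree) ∧
    (∃ δ : ℝ, 0 < δ ∧ ∃ N₀ : ℕ, ∀ g h : F[X], g.Monic → N₀ ≤ g.natDegree → h ≠ 0 →
      (∀ t : F[X], Irreducible t → t ∣ g →
        g.natDegree ^ 2 ≤ Fintype.card F ^ t.natDegree ∨ t ^ 2 ∣ h) →
      ((Odd g.natDegree ∧ (Fintype.card F % 4 = 3 ∨ ∃ k, Odd k ∧ Fintype.card F = 2 ^ k)) ∨
        ¬ Squarefree h) →
      ∃ C : Finset F[X], Fintype.card F ^ g.natDegree ≤ C.card ^ 2 ∧
        ∀ c ∈ C, c.natDegree < (h * g ^ (2 * p)).natDegree ∧ IsCoprime c (h * g ^ (2 * p)) ∧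
          ∀ P : F[X], Irreducible P → h * g ^ (2 * p) ∣ P - c →
            δ * gain p g.natDegree * (Fintype.card F : ℝ) ^ (g ^ (2 * p)).natDegree ≤
              (Fintype.card F : ℝ) ^ P.natDegree) ∧
    (p = 2 → ∀ ε : ℝ, 0 < ε → ε < 1 → ∃ N₀ : ℕ, ∀ g h : F[X], g.Monic → N₀ ≤ g.natDegree →
      h ≠ 0 →
      (∀ t : F[X], Irreducible t → t ∣ g →
        g.natDegree ≤ Fintype.card F ^ t.natDegree ∨ t ^ 2 ∣ h) →
      ((Odd g.natDegree ∧ ∃ k, Odd k ∧ Fintype.card F = 2 ^ k) ∨ ¬ Squarefree h) →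
      ∃ C : Finset F[X], ((Fintype.card F : ℝ) ^ (g ^ 4).natDegree) ^ (ε / 5) ≤ C.card ∧
        ∀ c ∈ C, c.natDegree < (h * g ^ 4).natDegree ∧ IsCoprime c (h * g ^ 4) ∧
          ∀ P : F[X], Irreducible P → h * g ^ 4 ∣ P - c → ∀ j : ℕ,
            (Fintype.card F : ℝ) ^ j ≤
              (1 - ε) * ((Fintype.card F : ℝ) - 1) * g.natDegree →
            (Fintype.card F : ℝ) ^ (g ^ 4).natDegree * ((Fintype.card F : ℝ) ^ j) ^ 2 ≤
              (Fintype.card F : ℝ) ^ P.natDegree) := by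
  have hprime : p.Prime := (CharP.char_is_prime F p)
  have : Fact p.Prime := ⟨hprime⟩
  by_cases hp2 : p = 2
  · subst hp2
    obtain ⟨k, hk⟩ := card_two (K := F)
    have hodd : ∀ g h : F[X], ((Odd g.natDegree ∧ ∃ k, Odd k ∧ Fintype.card F = 2 ^ k) ∨
        ¬ Squarefree h) → (Odd (k * g.natDegree) ∨ ¬ Squarefree h) := by
      rintro g h (⟨h1, k', h2, h3⟩ | h1)
      · left
        have h4 : k' = k := Nat.pow_right_injective le_rfl (by
          show 2 ^ k' = 2 ^ k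
          rw [← h3, hk])
        rw [h4] at h2
        exact h2.mul h1
      · exact Or.inr h1
    refine ⟨fun f hf => ?_, ?_, fun _ ε hε hε1 => ?_⟩
    · obtain ⟨δ, hδ, h1⟩ := Ff5.powers hk f hf
      refine ⟨δ, hδ, fun n hn => ?_⟩
      obtain ⟨c, h2, h3⟩ := h1 n (by omega)
      refine ⟨c, h2, fun P hP hdv => ?_⟩
      have h4 := h3 P hP hdv
      unfold gain
      rw [if_pos rfl]
      exact h4
    · obtain ⟨δ, hδ, N₀, h1⟩ := gen2 hk
      refine ⟨δ, hδ, N₀, fun g h hg hgN hh hr hcase => ?_⟩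
      obtain ⟨C, h2, h3⟩ := h1 g h hg hgN hh hr (hodd g h (by
        rcases hcase with ⟨h4, h5 | h5⟩ | h4
        · exfalso
          have h6 : 2 ∣ Fintype.card F := by
            obtain ⟨n, _, hn⟩ := FiniteField.card F 2
            rw [hn]
            exact dvd_pow_self 2 n.ne_zero
          omega
        · exact Or.inl ⟨h4, h5⟩
        · exact Or.inr h4))
      refine ⟨C, h2, fun c hc => ?_⟩
      obtain ⟨h4, h5, h6⟩ := h3 c hc
      refine ⟨h4, h5, fun P hP hdv => ?_⟩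
      unfold gain
      rw [if_pos rfl]
      exact h6 P hP hdv
    · obtain ⟨N₀, h1⟩ := Ff5.main5 hk hε hε1
      exact ⟨N₀, fun g h hg hgN hh hr hcase => h1 g h hg hgN hh hr (hodd g h hcase)⟩
  · refine ⟨fun f hf => ?_, ?_, fun h => absurd h hp2⟩
    · obtain ⟨δ, hδ, h1⟩ := powersp (K := F) p hp2 f hf
      refine ⟨δ, hδ, fun n hn => ?_⟩
      unfold gain
      rw [if_neg hp2]
      exact h1 n hn
    · obtain ⟨δ, hδ, N₀, h1⟩ := mainp (K := F) p hp2
      refine ⟨δ, hδ, N₀, fun g h hg hgN hh hr hcase => ?_⟩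
      unfold gain
      rw [if_neg hp2]
      refine h1 g h hg hgN hh hr ?_
      have hco := odd_card (K := F) p hp2
      rcases hcase with ⟨h4, h5 | ⟨k, hk, h5⟩⟩ | h4
      · left
        refine h4.mul ?_
        rw [Nat.odd_iff]
        omega
      · exfalso
        have h6 : k ≠ 0 := by
          rintro rfl
          exact absurd hk (by decide)
        have h7 : 2 ∣ Fintype.card F := h5 ▸ dvd_pow_self 2 h6
        rw [Nat.odd_iff] at hco
        omega
      · exact Or.inr h4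

end Pool.Agent.Ffp
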