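import Pool.Agent.Ffp.Red

/-!
Classes without small irreducible polynomials, odd characteristic.
-/

set_option autoImplicit false

namespace Pool.Agent.Ffp

open Polynomial Pool.Agent.Ff2 Pool.Agent.Ff4

variable {K : Type} [Field K] [Fintype K]

omit [Fintype K] in
/-- The derivative modulo `r`. -/
theorem cop_deriv (r b M x : K[X]) (h : IsCoprime r (derivative b)) (hM : r ∣ M) :
    IsCoprime r (derivative (b + M ^ 2 * x)) := by
  obtain ⟨c, hc⟩ := hM
  have h1 : derivative (b + M ^ 2 * x) =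
      derivative b + r * (c * (2 * derivative M * x + M * derivative x)) := by
    rw [derivative_add, derivative_mul, derivative_sq, hc]
    simp only [map_ofNat]
    ring
  rw [h1]
  exact h.add_mul_left_right _

/-- First kind of classes. -/
theorem key_odd (p : ℕ) [Fact p.Prime] [CharP K p] (hp2 : p ≠ 2) {L D : ℕ} {g w b r : K[X]}
    (hg : g.Monic) (hw0 : w ≠ 0)
    (hwL : ∀ a : K[X], a ≠ 0 → a.natDegree ≤ L → IsCoprime a r → a ∣ w)
    (hwD : ∀ u : K[X], u.natDegree ≤ D → derivative u ≠ 0 →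
      IsCoprime (derivative u) r → derivative u ∣ w)
    (hDL : D ≤ 2 * L + 1) (hdeg : w.natDegree + L + 1 ≤ g.natDegree)
    (ho : Odd (g.natDegree * ((Fintype.card K - 1) / 2)))
    (hb1 : IsCoprime r b) (hb2 : IsCoprime r (derivative b)) {P : K[X]}
    (hP : Irreducible P) (hdv : r ^ 2 * g ^ (2 * p) ∣ P - (w ^ p + b * g ^ (2 * p))) :
    D + 1 + 2 * p * g.natDegree ≤ P.natDegree := by
  have hpp := (Fact.out : p.Prime)
  obtain ⟨x, hx⟩ := hdv
  obtain ⟨f, hf⟩ : ∃ f, f = b + r ^ 2 * x := ⟨_, rfl⟩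
  have hPe : P = w ^ p + f * g ^ (2 * p) := by
    rw [hf]
    linear_combination hx
  have h2 : D + 1 ≤ f.natDegree ∨ f = 0 := by
    by_contra h3
    rw [not_or] at h3
    have c1 : IsCoprime r f := by
      have : f = b + r * (r * x) := by
        rw [hf]
        ring
      rw [this]
      exact hb1.add_mul_left_right _
    have c2 : IsCoprime r (derivative f) := hf ▸ cop_deriv r b r x hb2 dvd_rfl
    have h1 := redp (π := 1) (fs := f) (r := r) p hp2 hg hw0
      (fun a h1 h2 _ h3 => hwL a h1 h2 h3) (fun u h1 h2 _ h3 => hwD u h1 h2 h3)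
      (by rw [one_mul]; exact c1) (by rw [one_mul]; exact c2)
      hdeg (Or.inl ⟨rfl, ho⟩) isCoprime_one_left (by rw [one_mul]; omega) hDL
    rw [one_mul] at h1
    exact h1 (hPe ▸ hP)
  rcases h2 with h2 | h2
  · have hf0 : f ≠ 0 := by
      rintro h0
      rw [h0, natDegree_zero] at h2
      omega
    rw [hPe, deg_F hpp.pos hg hf0 (by omega)]
    omega
  · rw [h2, zero_mul, add_zero] at hPe
    exact absurd (hPe ▸ hP) (not_irreducible_pow hpp.ne_one)

/-- Second kind of classes. -/
theorem key_even (p : ℕ) [Fact p.Prime] [CharP K p] (hp2 : p ≠ 2) {L D : ℕ}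
    {g w π p₁ y r : K[X]} (hg : g.Monic) (hw0 : w ≠ 0)
    (hwL : ∀ a : K[X], a ≠ 0 → a.natDegree ≤ L → IsCoprime a π → IsCoprime a r → a ∣ w)
    (hwD : ∀ u : K[X], u.natDegree ≤ D → derivative u ≠ 0 → IsCoprime (derivative u) π →
      IsCoprime (derivative u) r → derivative u ∣ w)
    (hDL : D ≤ 2 * L + 1) (hdeg : w.natDegree + L + 1 ≤ g.natDegree)
    (he : Even (g.natDegree * ((Fintype.card K - 1) / 2)))
    (hπ : Irreducible π) (hp₁ : Irreducible p₁) (hp₁d : p₁.natDegree ≤ g.natDegree)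
    (hp₁w : p₁ ∣ w ^ p + π * g ^ (2 * p)) (hb1 : IsCoprime r (π + π ^ 2 * y))
    (hb2 : IsCoprime r (derivative (π + π ^ 2 * y))) {P : K[X]} (hP : Irreducible P)
    (hdv : (π * r) ^ 2 * g ^ (2 * p) ∣ P - (w ^ p + (π + π ^ 2 * y) * g ^ (2 * p))) :
    D + 1 + 2 * p * g.natDegree ≤ P.natDegree := by
  have hpp := (Fact.out : p.Prime)
  have hgpos : g.natDegree ≤ 2 * p * g.natDegree :=
    Nat.le_mul_of_pos_left _ (Nat.mul_pos two_pos hpp.pos)
  obtain ⟨x, hx⟩ := hdv
  obtain ⟨z, hz⟩ : ∃ z, z = y + r ^ 2 * x := ⟨_, rfl⟩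
  have hPe : P = w ^ p + π * (1 + π * z) * g ^ (2 * p) := by
    rw [hz]
    linear_combination hx
  have hpf : IsCoprime π (1 + π * z) := ⟨-z, 1, by ring⟩
  have hfs0 : (1 + π * z) ≠ 0 := by
    intro h
    rw [h] at hpf
    exact hπ.not_isUnit (isCoprime_zero_right.1 hpf)
  have hB0 : π * (1 + π * z) ≠ 0 := mul_ne_zero hπ.ne_zero hfs0
  have hPd : P.natDegree = (π * (1 + π * z)).natDegree + 2 * p * g.natDegree := by
    rw [hPe, deg_F hpp.pos hg hB0 (by omega)]
  have hu : ¬ IsUnit (1 + π * z) := by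
    intro hu
    have h0 := natDegree_eq_zero_of_isUnit hu
    have hx0 : z = 0 := by
      by_contra hx0
      have h1 : (π * z).natDegree = π.natDegree + z.natDegree := natDegree_mul hπ.ne_zero hx0
      have h2 := hπ.natDegree_pos
      have h3 : (1 + π * z).natDegree = (π * z).natDegree := by
        rw [natDegree_add_eq_right_of_natDegree_lt]
        rw [natDegree_one]
        omega
      omega
    rw [hx0, mul_zero, add_zero, mul_one] at hPe hPd
    have h1 : p₁ ∣ P := hPe ▸ hp₁w
    have h2 : Associated p₁ P := hp₁.associated_of_dvd hP h1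
    have h3 : p₁.natDegree = P.natDegree :=
      natDegree_eq_of_degree_eq (degree_eq_degree_of_associated h2)
    have h4 := hπ.natDegree_pos
    omega
  have h2 : D + 1 ≤ (π * (1 + π * z)).natDegree := by
    by_contra h3
    have hform : π * (1 + π * z) = π + π ^ 2 * y + (π * r) ^ 2 * x := by
      rw [hz]
      ring
    have c1 : IsCoprime r (π * (1 + π * z)) := by
      have : π * (1 + π * z) = π + π ^ 2 * y + r * (r * π ^ 2 * x) := by
        rw [hform]
        ring
      rw [this]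
      exact hb1.add_mul_left_right _
    have c2 : IsCoprime r (derivative (π * (1 + π * z))) := by
      rw [hform]
      exact cop_deriv r (π + π ^ 2 * y) (π * r) x hb2 (dvd_mul_left _ _)
    have h1 := redp (π := π) (fs := 1 + π * z) (r := r) p hp2 hg hw0 hwL hwD c1 c2 hdeg
      (Or.inr ⟨hπ, he, hu⟩) hpf (by omega) hDL
    exact h1 (hPe ▸ hP)
  omega

end Pool.Agent.Ffp
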