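import Pool.Agent.Ff5.Key

/-!
Auxiliary lemmas in characteristic `p`: roots, products of derivatives, residues, small primes.
-/

set_option autoImplicit false

namespace Pool.Agent.Ffp

open Polynomial Pool.Agent.Ff2 Pool.Agent.Ff3 Pool.Agent.Ff4 Pool.Agent.Ff5
  UniqueFactorizationMonoid

section roots

variable {K : Type} [Field K] [Fintype K] (p : ℕ) [Fact p.Prime] [CharP K p]

theorem root (a : K) : ∃ b : K, b ^ p = a := by
  obtain ⟨b, hb⟩ := surjective_frobenius K p a
  exact ⟨b, by rw [← hb, frobenius_def]⟩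

theorem pow_of_deriv {f : K[X]} (hf : derivative f = 0) : ∃ r : K[X], f = r ^ p := by
  have h1 := expand_contract (R := K) p hf (Fact.out : p.Prime).ne_zero
  have h2 := polynomial_expand_eq (R := K) (p := p) (contract p f)
  exact ⟨_, h1.symm.trans h2⟩

/-- Roots modulo a prime. -/
theorem root_mod (p₁ W y : K[X]) (hp : Irreducible p₁) (hW : ¬ p₁ ∣ W) :
    ∃ s : K[X], s.natDegree < p₁.natDegree ∧ p₁ ∣ (W * s) ^ p + y := by
  have : Fact (Irreducible p₁) := ⟨hp⟩
  have hfin : Module.Finite K (AdjoinRoot p₁) := (AdjoinRoot.powerBasis hp.ne_zero).finite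
  have hf2 : Finite (AdjoinRoot p₁) := Module.finite_of_finite K
  have hf3 : Fintype (AdjoinRoot p₁) := Fintype.ofFinite _
  have hch : CharP (AdjoinRoot p₁) p :=
    charP_of_injective_algebraMap (algebraMap K (AdjoinRoot p₁)).injective p
  obtain ⟨b, hb⟩ := root (K := AdjoinRoot p₁) p (- AdjoinRoot.mk p₁ y)
  have hW0 : AdjoinRoot.mk p₁ W ≠ 0 := by
    rw [Ne, AdjoinRoot.mk_eq_zero]
    exact hW
  obtain ⟨s, hs⟩ := AdjoinRoot.mk_surjective (b / AdjoinRoot.mk p₁ W)
  refine ⟨s % p₁, ?_, ?_⟩
  · exact natDegree_mod_lt _ hp.natDegree_pos.ne'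
  · rw [← AdjoinRoot.mk_eq_zero, map_add, map_pow, map_mul]
    have h1 : AdjoinRoot.mk p₁ (s % p₁) = AdjoinRoot.mk p₁ s := by
      rw [AdjoinRoot.mk_eq_mk]
      have := EuclideanDomain.mod_add_div s p₁
      exact ⟨-(s / p₁), by linear_combination this⟩
    rw [h1, hs, mul_div_cancel₀ _ hW0, hb]
    ring

/-- A prime not dividing a given polynomial. -/
theorem exists_prime (G : K[X]) (hG : G ≠ 0) (n : ℕ)
    (hn : n ≠ 0) (h : G.natDegree < Fintype.card K ^ n) :
    ∃ t : K[X], Irreducible t ∧ t.natDegree ≤ n ∧ ¬ t ∣ G := by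
  classical
  obtain ⟨p, hchar⟩ := CharP.exists K
  have := hchar
  have hK2 : p ∣ Fintype.card K := by
    obtain ⟨k, _, hk⟩ := FiniteField.card K p
    rw [hk]
    exact dvd_pow_self p k.ne_zero
  obtain ⟨m, rfl⟩ := Nat.exists_eq_succ_of_ne_zero hn
  obtain ⟨hQm, hQd⟩ := deg_factor K m
  have hsq : Squarefree (X ^ (Fintype.card K ^ (m + 1)) - X : K[X]) :=
    (galois_poly_separable p _ (dvd_pow hK2 (Nat.succ_ne_zero m))).squarefree
  obtain ⟨Q, hQ⟩ : ∃ Q, Q = (X ^ (Fintype.card K ^ (m + 1)) - X : K[X]) := ⟨_, rfl⟩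
  rw [← hQ] at hQm hQd hsq
  by_contra hcon
  push Not at hcon
  have h1 : ∀ t : K[X], Irreducible t → t ∣ Q → t ∣ G := by
    intro t ht htQ
    apply hcon t ht
    have h2 : t.natDegree ∣ m + 1 := by
      rw [ht.natDegree_dvd_iff_dvd_X_pow_card_pow_sub_X, Nat.card_eq_fintype_card, ← hQ]
      exact htQ
    exact Nat.le_of_dvd (Nat.succ_pos m) h2
  have h2 : Q ∣ G := by
    obtain ⟨e, he⟩ := EuclideanDomain.gcd_dvd_left Q G
    have hu : IsUnit e := by
      by_contra hu
      have he0 : e ≠ 0 := by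
        rintro rfl
        rw [mul_zero] at he
        exact hQm.ne_zero he
      obtain ⟨t, ht, hte⟩ := WfDvdMonoid.exists_irreducible_factor hu he0
      have htQ : t ∣ Q := he ▸ (hte.mul_left _)
      have h3 : t ∣ EuclideanDomain.gcd Q G := EuclideanDomain.dvd_gcd htQ (h1 t ht htQ)
      have h4 : t * t ∣ Q := by
        rw [he]
        exact mul_dvd_mul h3 hte
      exact ht.not_isUnit (hsq t h4)
    have h5 : Q ∣ EuclideanDomain.gcd Q G := by
      conv_lhs => rw [he]
      exact (hu.mul_right_dvd).2 dvd_rfl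
    exact h5.trans (EuclideanDomain.gcd_dvd_right Q G)
  have h3 := natDegree_le_of_dvd h2 hG
  rw [Nat.succ_eq_add_one, ← hQd] at h
  omega

end roots

/-! ### Products of derivatives -/

section dprod

variable (K : Type) [Field K] [Fintype K] (p D : ℕ)

/-- The exponents of a derivative. -/
def idx : Finset ℕ := (Finset.range D).filter fun j => ¬ p ∣ j + 1

theorem card_idx (t : ℕ) (hp : 0 < p) : (idx p (p * t)).card = (p - 1) * t := by
  unfold idx
  have h1 := Finset.card_filter_add_card_filter_not (s := Finset.range (p * t))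
    (fun j => p ∣ j + 1)
  rw [Nat.card_multiples, Nat.mul_div_cancel_left _ hp, Finset.card_range] at h1
  rw [Nat.sub_mul, one_mul]
  omega

/-- The polynomial with given coefficients. -/
noncomputable def dpol (a : idx p D → K) : K[X] := ∑ j : idx p D, C (a j) * X ^ (j : ℕ)

open Classical in
/-- The product of all derivatives. -/
noncomputable def dprod : K[X] := ∏ a ∈ Finset.univ.filter (fun a : idx p D → K => a ≠ 0),
  dpol K p D a

variable {K}

omit [Fintype K] in
theorem coeff_dpol (a : idx p D → K) (j : idx p D) : (dpol K p D a).coeff j = a j := by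
  classical
  unfold dpol
  rw [finsetSum_coeff]
  have h1 : ∀ i : idx p D, (C (a i) * X ^ (i : ℕ) : K[X]).coeff (j : ℕ) =
      if i = j then a i else 0 := by
    intro i
    rw [coeff_C_mul, coeff_X_pow]
    by_cases h : i = j
    · rw [h]
      simp
    · have h2 : (j : ℕ) ≠ i := fun h3 => h (Subtype.ext h3.symm)
      rw [if_neg h2, if_neg h, mul_zero]
  rw [Finset.sum_congr rfl fun i _ => h1 i, Finset.sum_ite_eq' Finset.univ j,
    if_pos (Finset.mem_univ _)]

omit [Fintype K] in
theorem dpol_ne (a : idx p D → K) (ha : a ≠ 0) : dpol K p D a ≠ 0 := by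
  intro h
  apply ha
  funext j
  rw [← coeff_dpol p D a j, h]
  simp

omit [Fintype K] in
theorem deg_dpol (a : idx p D → K) : (dpol K p D a).natDegree ≤ D - 1 := by
  unfold dpol
  refine natDegree_sum_le_of_forall_le _ _ fun j _ => ?_
  refine (natDegree_C_mul_X_pow_le _ _).trans ?_
  have hj := j.2
  unfold idx at hj
  rw [Finset.mem_filter, Finset.mem_range] at hj
  omega

theorem dprod_ne : dprod K p D ≠ 0 := by
  classical
  unfold dprod
  rw [Finset.prod_ne_zero_iff]
  intro a ha
  exact dpol_ne p D a (Finset.mem_filter.1 ha).2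

theorem deg_dprod : (dprod K p D).natDegree ≤ Fintype.card K ^ (idx p D).card * (D - 1) := by
  classical
  unfold dprod
  refine (natDegree_prod_le _ _).trans ?_
  refine (Finset.sum_le_card_nsmul _ _ (D - 1) fun a _ => deg_dpol p D a).trans ?_
  rw [smul_eq_mul]
  refine Nat.mul_le_mul_right _ ?_
  refine (Finset.card_filter_le _ _).trans ?_
  rw [Finset.card_univ, Fintype.card_fun, Fintype.card_coe]

theorem dvd_dprod [Fact p.Prime] [CharP K p] (u : K[X]) (hu : u.natDegree ≤ D)
    (hu0 : derivative u ≠ 0) : derivative u ∣ dprod K p D := by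
  classical
  obtain ⟨a, ha⟩ : ∃ a : idx p D → K, ∀ j, a j = (derivative u).coeff j := ⟨_, fun _ => rfl⟩
  have h1 : dpol K p D a = derivative u := by
    ext n
    by_cases hn : n ∈ idx p D
    · rw [coeff_dpol p D a ⟨n, hn⟩, ha]
    · have h2 : (dpol K p D a).coeff n = 0 := by
        unfold dpol
        rw [finsetSum_coeff]
        refine Finset.sum_eq_zero fun j _ => ?_
        rw [coeff_C_mul, coeff_X_pow, if_neg, mul_zero]
        intro h3
        exact hn (h3 ▸ j.2)
      rw [h2]
      unfold idx at hn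
      rw [Finset.mem_filter, Finset.mem_range, not_and_or, not_not] at hn
      rw [coeff_derivative]
      rcases hn with h3 | h3
      · rw [coeff_eq_zero_of_natDegree_lt (by omega), zero_mul]
      · have h4 : ((n + 1 : ℕ) : K) = 0 := (CharP.cast_eq_zero_iff K p _).2 h3
        push_cast at h4
        rw [h4, mul_zero]
  have h0 : a ≠ 0 := by
    rintro rfl
    apply hu0
    rw [← h1]
    unfold dpol
    simp
  rw [← h1]
  unfold dprod
  exact Finset.dvd_prod_of_mem (dpol K p D) (Finset.mem_filter.2 ⟨Finset.mem_univ _, h0⟩)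

theorem deg_of_dvd_dprod (t : K[X]) (ht : Irreducible t) (h : t ∣ dprod K p D) :
    t.natDegree ≤ D - 1 := by
  classical
  unfold dprod at h
  obtain ⟨a, ha, h1⟩ := (Prime.dvd_finsetProd_iff ht.prime _).1 h
  exact (natDegree_le_of_dvd h1 (dpol_ne p D a (Finset.mem_filter.1 ha).2)).trans (deg_dpol p D a)

end dprod

end Pool.Agent.Ffp
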