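import Pool.Agent.Ffp.Lem

/-!
Residues prime to a finite set of primes together with their derivatives; the primes of the modulus.
-/

set_option autoImplicit false

namespace Pool.Agent.Ffp

open Polynomial Pool.Agent.Ff2 Pool.Agent.Ff3 Pool.Agent.Ff4 Pool.Agent.Ff5
  UniqueFactorizationMonoid

variable {K : Type} [Field K]

/-- A residue prime to a finite set of primes, with its derivative. -/
theorem exists_beta [PerfectField K] (A₀ M : K[X]) (S : Finset K[X])
    (hS : ∀ t ∈ S, Irreducible t ∧ ¬ t ∣ M) (hp : ∀ t ∈ S, ∀ t' ∈ S, t ≠ t' → ¬ t ∣ t') :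
    ∃ y : K[X], ∀ t ∈ S, ¬ t ∣ A₀ + M ^ 2 * y ∧ ¬ t ∣ derivative (A₀ + M ^ 2 * y) := by
  classical
  induction S using Finset.induction_on with
  | empty => exact ⟨0, fun t ht => absurd ht (Finset.notMem_empty t)⟩
  | insert t S htS ih =>
    obtain ⟨y₀, hy₀⟩ := ih (fun s hs => hS s (Finset.mem_insert_of_mem hs))
      (fun s hs s' hs' => hp s (Finset.mem_insert_of_mem hs) s' (Finset.mem_insert_of_mem hs'))
    obtain ⟨ht, htM⟩ := hS t (Finset.mem_insert_self _ _)
    obtain ⟨R, hR⟩ : ∃ R : K[X], R = ∏ s ∈ S, s := ⟨_, rfl⟩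
    have hR1 : ∀ s ∈ S, s ∣ R := fun s hs => hR ▸ Finset.dvd_prod_of_mem (fun s => s) hs
    have hR2 : ¬ t ∣ R := by
      intro h
      rw [hR] at h
      obtain ⟨s, hs, h1⟩ := (Prime.dvd_finsetProd_iff ht.prime _).1 h
      exact hp t (Finset.mem_insert_self _ _) s (Finset.mem_insert_of_mem hs)
        (fun h2 => htS (h2 ▸ hs)) h1
    clear hR
    have hte : ¬ t ∣ (M * R) ^ 2 := by
      intro h
      rcases ht.prime.dvd_or_dvd (ht.prime.dvd_of_dvd_pow h) with h1 | h1
      · exact htM h1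
      · exact hR2 h1
    have htd : ¬ t ∣ derivative t := by
      intro h
      have h6 : IsCoprime t (derivative t) := PerfectField.separable_of_irreducible ht
      exact ht.not_isUnit (h6.isUnit_of_dvd' dvd_rfl h)
    have hform : ∀ z : K[X], A₀ + M ^ 2 * (y₀ + R ^ 2 * z) = A₀ + M ^ 2 * y₀ + (M * R) ^ 2 * z := by
      intro z
      ring
    have hder : ∀ z : K[X], derivative (A₀ + M ^ 2 * (y₀ + R ^ 2 * z)) =
        derivative (A₀ + M ^ 2 * y₀) + (M * R) ^ 2 * derivative z +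
          derivative ((M * R) ^ 2) * z := by
      intro z
      rw [hform, derivative_add (f := A₀ + M ^ 2 * y₀), derivative_mul]
      ring
    have hold : ∀ z : K[X], ∀ s ∈ S, ¬ s ∣ A₀ + M ^ 2 * (y₀ + R ^ 2 * z) ∧
        ¬ s ∣ derivative (A₀ + M ^ 2 * (y₀ + R ^ 2 * z)) := by
      intro z s hs
      have h0 : s ∣ M * R := (hR1 s hs).mul_left _
      have h1 : s ∣ (M * R) ^ 2 := dvd_pow h0 two_ne_zero
      have h2 : s ∣ derivative ((M * R) ^ 2) := by
        rw [derivative_sq]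
        exact (h0.mul_left _).mul_right _
      refine ⟨fun h => (hy₀ s hs).1 ?_, fun h => (hy₀ s hs).2 ?_⟩
      · rw [hform] at h
        exact (dvd_add_left (h1.mul_right _)).1 h
      · rw [hder, add_assoc] at h
        exact (dvd_add_left (dvd_add (h1.mul_right _) (h2.mul_right _))).1 h
    -- the value
    obtain ⟨z₀, hz₀⟩ : ∃ z₀ : K[X], ¬ t ∣ A₀ + M ^ 2 * y₀ + (M * R) ^ 2 * z₀ := by
      by_cases h3 : t ∣ A₀ + M ^ 2 * y₀
      · refine ⟨1, fun h => hte ?_⟩
        rw [mul_one] at h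
        exact (dvd_add_right h3).1 h
      · refine ⟨0, ?_⟩
        rw [mul_zero, add_zero]
        exact h3
    -- the derivative
    obtain ⟨z, hz1, hz2⟩ : ∃ z : K[X], ¬ t ∣ A₀ + M ^ 2 * y₀ + (M * R) ^ 2 * z ∧
        ¬ t ∣ derivative (A₀ + M ^ 2 * y₀) + (M * R) ^ 2 * derivative z +
          derivative ((M * R) ^ 2) * z := by
      by_cases h3 : t ∣ derivative (A₀ + M ^ 2 * y₀) + (M * R) ^ 2 * derivative z₀ +
          derivative ((M * R) ^ 2) * z₀
      · refine ⟨z₀ + t, fun h => hz₀ ?_, fun h => ?_⟩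
        · have h4 : A₀ + M ^ 2 * y₀ + (M * R) ^ 2 * (z₀ + t) =
              A₀ + M ^ 2 * y₀ + (M * R) ^ 2 * z₀ + t * (M * R) ^ 2 := by ring
          rw [h4] at h
          exact (dvd_add_left (dvd_mul_right _ _)).1 h
        · have h4 : derivative (A₀ + M ^ 2 * y₀) + (M * R) ^ 2 * derivative (z₀ + t) +
              derivative ((M * R) ^ 2) * (z₀ + t) =
              (derivative (A₀ + M ^ 2 * y₀) + (M * R) ^ 2 * derivative z₀ +
                derivative ((M * R) ^ 2) * z₀) + ((M * R) ^ 2 * derivative t +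
                t * derivative ((M * R) ^ 2)) := by
            rw [derivative_add (f := z₀)]
            ring
          rw [h4] at h
          have h5 := (dvd_add_right h3).1 h
          have h6 := (dvd_add_left (dvd_mul_right _ _)).1 h5
          rcases ht.prime.dvd_or_dvd h6 with h7 | h7
          · exact hte h7
          · exact htd h7
      · exact ⟨z₀, hz₀, h3⟩
    refine ⟨y₀ + R ^ 2 * z, fun s hs => ?_⟩
    rcases Finset.mem_insert.1 hs with rfl | hs
    · rw [hder, hform]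
      exact ⟨hz1, hz2⟩
    · exact hold z s hs

/-- The primes of `g` not dividing `A`. -/
theorem primes_out (g A : K[X]) (hg : g ≠ 0) (ℓ : ℕ)
    (hA : ∀ t : K[X], Irreducible t → t.natDegree < ℓ → t ∣ A) :
    ∃ T : Finset K[X], ℓ * T.card ≤ g.natDegree ∧
      (∀ t ∈ T, Irreducible t ∧ t ∣ g ∧ ℓ ≤ t.natDegree) ∧
      ∀ t : K[X], Irreducible t → t ∣ g → ¬ t ∣ A → ∃ t' ∈ T, Associated t t' := by
  obtain ⟨T, h1, h2, h3⟩ := large_primes g hg ℓ
  exact ⟨T, h1, h2, fun t ht htg htA => h3 t ht htg (not_lt.1 fun h => htA (hA t ht h))⟩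

/-- The primes of `g` dividing `A`, except the associates of `π`. -/
theorem primes_in (g A π : K[X]) (hg : g ≠ 0) :
    ∃ S : Finset K[X], (∀ t ∈ S, Irreducible t ∧ t ∣ g ∧ t ∣ A ∧ ¬ Associated t π) ∧
      (∀ t ∈ S, ∀ t' ∈ S, t ≠ t' → ¬ t ∣ t') ∧
      ∀ t : K[X], Irreducible t → t ∣ g → ¬ t ∣ A ∨ Associated t π ∨
        ∃ t' ∈ S, Associated t t' := by
  classical
  obtain ⟨T, hT⟩ : ∃ T : Finset K[X], T = (normalizedFactors g).toFinset.filter
      (fun t => t ∣ A ∧ ¬ Associated t π) := ⟨_, rfl⟩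
  have hmem : ∀ t : K[X], t ∈ T ↔ t ∈ normalizedFactors g ∧ t ∣ A ∧ ¬ Associated t π := by
    intro t
    rw [hT, Finset.mem_filter, Multiset.mem_toFinset]
  have hirr : ∀ t ∈ T, Irreducible t :=
    fun t ht => irreducible_of_normalized_factor t ((hmem t).1 ht).1
  refine ⟨T, fun t ht => ⟨hirr t ht, dvd_of_mem_normalizedFactors ((hmem t).1 ht).1,
    ((hmem t).1 ht).2⟩, fun t ht t' ht' hne hd => hne (eq_of_dvd_norm (hirr t ht) (hirr t' ht')
      (normalize_normalized_factor t ((hmem t).1 ht).1)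
      (normalize_normalized_factor t' ((hmem t').1 ht').1) hd), fun t ht htg => ?_⟩
  obtain ⟨q, hq, ha⟩ := exists_mem_normalizedFactors_of_dvd hg ht htg
  by_cases h5 : t ∣ A
  · by_cases h6 : Associated t π
    · exact Or.inr (Or.inl h6)
    · exact Or.inr (Or.inr ⟨q, (hmem q).2 ⟨hq, ha.symm.dvd.trans h5,
        fun h7 => h6 (ha.trans h7)⟩, ha⟩)
  · exact Or.inl h5

/-- Degree of `w ^ m + f g ^ (2 m)`. -/
theorem deg_F {m : ℕ} {g w f : K[X]} (hm : 0 < m) (hg : g.Monic) (hf : f ≠ 0)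
    (h : w.natDegree < g.natDegree) :
    (w ^ m + f * g ^ (2 * m)).natDegree = f.natDegree + 2 * m * g.natDegree := by
  have h3 : (f * g ^ (2 * m)).natDegree = f.natDegree + 2 * m * g.natDegree := by
    rw [natDegree_mul hf (hg.pow _).ne_zero, hg.natDegree_pow]
  have h4 : (w ^ m).natDegree = m * w.natDegree := natDegree_pow w m
  have h5 : m * w.natDegree < m * g.natDegree := Nat.mul_lt_mul_of_pos_left h hm
  have h6 : 2 * m * g.natDegree = m * g.natDegree + m * g.natDegree := by ring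
  rw [natDegree_add_eq_right_of_natDegree_lt (by omega), h3]

theorem pow_inj (p : ℕ) [Fact p.Prime] [CharP K p] :
    Function.Injective (fun x : K[X] => x ^ p) := by
  intro x y h
  have h1 : (frobenius K[X] p) x = (frobenius K[X] p) y := by
    rw [frobenius_def, frobenius_def]
    exact h
  exact frobenius_inj K[X] p h1

end Pool.Agent.Ffp
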