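import Mathlib

/-!
The parameters.
-/

set_option autoImplicit false

namespace Pool.Agent.Ffp

theorem eight_le (x : ℕ) (hx : 6 ≤ x) : 8 * x ≤ 2 ^ x := by
  induction x, hx using Nat.le_induction with
  | base => norm_num
  | succ n hn ih =>
    rw [pow_succ]
    omega

/-- The parameters `L`, `t`. -/
theorem params (q p : ℕ) (hq : 3 ≤ q) (hp : 3 ≤ p) : ∃ N₀ : ℕ, ∀ N : ℕ, N₀ ≤ N → ∃ L t : ℕ,
    8 * q ^ (L + 1) ≤ N ∧ N + (L + 1) < (L + 1) * q ^ (L + 1) ∧ p * t ≤ 2 * L + 1 ∧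
    8 * (p * t * q ^ ((p - 1) * t)) ≤ N ∧ 3 * N < q ^ (L + 5) ∧ 64 * (L + 1) ≤ N ∧
    N < 8 * (p * (t + 1) * q ^ ((p - 1) * (t + 1))) ∧ t + 1 ≤ L + 1 ∧ 10 ≤ L := by
  refine ⟨8 * q ^ (8 * q + 20), fun N hN => ?_⟩
  have hq0 : 0 < q := by omega
  have hex : ∃ j : ℕ, N < 8 * q ^ j := by
    refine ⟨N, ?_⟩
    have h1 : N < 2 ^ N := Nat.lt_two_pow_self
    have h2 : 2 ^ N ≤ q ^ N := Nat.pow_le_pow_left (by omega) _
    omega
  classical
  obtain ⟨J, hJ⟩ : ∃ J, J = Nat.find hex := ⟨_, rfl⟩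
  have hJ1 : N < 8 * q ^ J := hJ ▸ Nat.find_spec hex
  have hJ2 : ∀ i < J, 8 * q ^ i ≤ N := fun i hi => not_lt.1 (Nat.find_min hex (hJ ▸ hi))
  have hJ3 : 8 * q + 20 < J := by
    by_contra h
    have h1 : q ^ J ≤ q ^ (8 * q + 20) := Nat.pow_le_pow_right hq0 (by omega)
    omega
  obtain ⟨L, rfl⟩ : ∃ L, J = L + 2 := ⟨J - 2, by omega⟩
  have hx := hJ2 (L + 1) (by omega)
  have hex2 : ∃ j : ℕ, N < 8 * (p * j * q ^ ((p - 1) * j)) := by
    refine ⟨N + 1, ?_⟩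
    have h1 : 1 ≤ q ^ ((p - 1) * (N + 1)) := Nat.one_le_pow _ _ hq0
    have h2 : 1 * (N + 1) * 1 ≤ p * (N + 1) * q ^ ((p - 1) * (N + 1)) :=
      Nat.mul_le_mul (Nat.mul_le_mul_right _ (by omega)) h1
    omega
  obtain ⟨T, hT⟩ : ∃ T, T = Nat.find hex2 := ⟨_, rfl⟩
  have hT1 : N < 8 * (p * T * q ^ ((p - 1) * T)) := hT ▸ Nat.find_spec hex2
  have hT2 : ∀ i < T, 8 * (p * i * q ^ ((p - 1) * i)) ≤ N :=
    fun i hi => not_lt.1 (Nat.find_min hex2 (hT ▸ hi))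
  have hT0 : T ≠ 0 := by
    intro h0
    rw [h0] at hT1
    omega
  obtain ⟨t, rfl⟩ : ∃ t, T = t + 1 := ⟨T - 1, by omega⟩
  have ht := hT2 t (by omega)
  have ht2 : (p - 1) * t ≤ L + 1 := by
    rcases Nat.eq_zero_or_pos t with h0 | h0
    · rw [h0]
      omega
    · have h1 : q ^ ((p - 1) * t) < q ^ (L + 2) := by
        have h2 : 1 * q ^ ((p - 1) * t) ≤ p * t * q ^ ((p - 1) * t) :=
          Nat.mul_le_mul_right _ (Nat.mul_pos (by omega) h0)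
        omega
      have := (Nat.pow_lt_pow_iff_right (by omega : 1 < q)).1 h1
      omega
  have ht3 : 2 * (p * t) ≤ 3 * ((p - 1) * t) := by
    obtain ⟨r, rfl⟩ : ∃ r, p = r + 3 := ⟨p - 3, by omega⟩
    have h1 : r + 3 - 1 = r + 2 := by omega
    rw [h1]
    nlinarith
  have ht4 : 2 * t ≤ (p - 1) * t := Nat.mul_le_mul_right _ (by omega)
  have hpow : q ^ (L + 2) = q * q ^ (L + 1) := by ring
  have h2x : 8 * (L + 1) ≤ q ^ (L + 1) :=
    (eight_le (L + 1) (by omega)).trans (Nat.pow_le_pow_left (by omega) _)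
  refine ⟨L, t, hx, ?_, by omega, ht, ?_, by omega, hT1, by omega, by omega⟩
  · have h1 : (8 * q + 1) * q ^ (L + 1) ≤ (L + 1) * q ^ (L + 1) :=
      Nat.mul_le_mul_right _ (by omega)
    have h3 : (8 * q + 1) * q ^ (L + 1) = 8 * (q * q ^ (L + 1)) + q ^ (L + 1) := by ring
    rw [hpow] at hJ1
    omega
  · have h1 : q ^ (L + 5) = q ^ 3 * q ^ (L + 2) := by ring
    have h2 : 27 ≤ q ^ 3 := by
      calc 27 = 3 ^ 3 := by norm_num
        _ ≤ q ^ 3 := Nat.pow_le_pow_left hq 3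
    have h3 : 27 * q ^ (L + 2) ≤ q ^ 3 * q ^ (L + 2) := Nat.mul_le_mul_right _ h2
    rw [h1]
    omega

/-- The bound in terms of the logarithm. -/
theorem log_bound (q p : ℕ) (hq : 3 ≤ q) (hp : 3 ≤ p) (N L t : ℕ)
    (h1 : 8 * q ^ (L + 1) ≤ N) (h2 : N < 8 * (p * (t + 1) * q ^ ((p - 1) * (t + 1))))
    (h3 : t + 1 ≤ L + 1) :
    (1 / (8 * (p : ℝ) * (q : ℝ) ^ (p - 1))) ^ ((p : ℝ) / (p - 1)) *
      ((N : ℝ) / Real.log N) ^ ((p : ℝ) / (p - 1)) ≤ (q : ℝ) ^ (p * t) := by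
  have hq' : (3 : ℝ) ≤ q := by exact_mod_cast hq
  have hp' : (3 : ℝ) ≤ p := by exact_mod_cast hp
  have hpos : 0 < 8 * q ^ (L + 1) := by positivity
  have hN0 : (0 : ℝ) < N := by
    have : 0 < N := by omega
    exact_mod_cast this
  have hlog : (L : ℝ) + 1 ≤ Real.log N := by
    have h4 : Real.exp ((L : ℝ) + 1) ≤ N := by
      have h5 : Real.exp ((L : ℝ) + 1) = Real.exp 1 ^ (L + 1) := by
        rw [← Real.exp_nat_mul]
        congr 1
        push_cast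
        ring
      have h6 : Real.exp 1 ≤ q := by linarith [Real.exp_one_lt_d9]
      have h7 : (8 : ℝ) * (q : ℝ) ^ (L + 1) ≤ N := by exact_mod_cast h1
      have h8 : Real.exp 1 ^ (L + 1) ≤ (q : ℝ) ^ (L + 1) :=
        pow_le_pow_left₀ (Real.exp_pos _).le h6 _
      have h9 : (0 : ℝ) < (q : ℝ) ^ (L + 1) := by positivity
      rw [h5]
      linarith
    rw [← Real.log_exp ((L : ℝ) + 1)]
    exact Real.log_le_log (Real.exp_pos _) h4
  have hlog0 : 0 < Real.log N := by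
    have : (0 : ℝ) ≤ L := by positivity
    linarith
  have hT : ((t : ℝ) + 1) ≤ Real.log N := by
    have : ((t + 1 : ℕ) : ℝ) ≤ ((L + 1 : ℕ) : ℝ) := by exact_mod_cast h3
    push_cast at this
    linarith
  have h5 : (N : ℝ) ≤ 8 * p * (q : ℝ) ^ (p - 1) * Real.log N * (q : ℝ) ^ ((p - 1) * t) := by
    have h6 : (N : ℝ) ≤ 8 * (p * (t + 1) * (q : ℝ) ^ ((p - 1) * (t + 1))) := by
      exact_mod_cast h2.le
    have h7 : (q : ℝ) ^ ((p - 1) * (t + 1)) = (q : ℝ) ^ (p - 1) * (q : ℝ) ^ ((p - 1) * t) := by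
      rw [← pow_add]
      congr 1
      ring
    rw [h7] at h6
    have h8 : (0 : ℝ) < (q : ℝ) ^ (p - 1) * (q : ℝ) ^ ((p - 1) * t) := by positivity
    have h9 : (p : ℝ) * (t + 1) * ((q : ℝ) ^ (p - 1) * (q : ℝ) ^ ((p - 1) * t)) ≤
        p * Real.log N * ((q : ℝ) ^ (p - 1) * (q : ℝ) ^ ((p - 1) * t)) :=
      mul_le_mul_of_nonneg_right (mul_le_mul_of_nonneg_left hT (by positivity)) h8.le
    nlinarith
  have hc0 : (0 : ℝ) < 8 * p * (q : ℝ) ^ (p - 1) := by positivity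
  have h6 : 1 / (8 * (p : ℝ) * (q : ℝ) ^ (p - 1)) * ((N : ℝ) / Real.log N) ≤
      (q : ℝ) ^ ((p - 1) * t) := by
    rw [div_mul_div_comm, one_mul, div_le_iff₀ (by positivity)]
    linarith
  rw [← Real.mul_rpow (by positivity) (by positivity)]
  have he : (0 : ℝ) ≤ (p : ℝ) / (p - 1) := by
    apply div_nonneg <;> linarith
  refine (Real.rpow_le_rpow (by positivity) h6 he).trans (le_of_eq ?_)
  rw [← Real.rpow_natCast, ← Real.rpow_mul (by positivity), ← Real.rpow_natCast]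
  congr 1
  have h7 : ((p - 1 : ℕ) : ℝ) = (p : ℝ) - 1 := by
    rw [Nat.cast_sub (by omega), Nat.cast_one]
  push_cast
  rw [h7]
  have h8 : (p : ℝ) - 1 ≠ 0 := by linarith
  field_simp

end Pool.Agent.Ffp
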