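import Pool.Agent.Ffp.Cls2
import Pool.Agent.Ffp.Num

/-!
Many classes without small irreducible polynomials modulo `h g ^ (2 p)`, over every finite field of
odd characteristic.
-/

set_option autoImplicit false

namespace Pool.Agent.Ffp

open Polynomial Pool.Agent.Ff2 Pool.Agent.Ff3 Pool.Agent.Ff4

variable {K : Type} [Field K] [Fintype K]

theorem mainp (p : ℕ) [Fact p.Prime] [CharP K p] (hp2 : p ≠ 2) :
    ∃ δ : ℝ, 0 < δ ∧ ∃ N₀ : ℕ, ∀ g h : K[X], g.Monic → N₀ ≤ g.natDegree → h ≠ 0 →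
      (∀ t : K[X], Irreducible t → t ∣ g →
        g.natDegree ^ 2 ≤ Fintype.card K ^ t.natDegree ∨ t ^ 2 ∣ h) →
      (Odd (g.natDegree * ((Fintype.card K - 1) / 2)) ∨ ¬ Squarefree h) →
      ∃ C : Finset K[X], Fintype.card K ^ g.natDegree ≤ C.card ^ 2 ∧
        ∀ c ∈ C, c.natDegree < (h * g ^ (2 * p)).natDegree ∧ IsCoprime c (h * g ^ (2 * p)) ∧
          ∀ P : K[X], Irreducible P → h * g ^ (2 * p) ∣ P - c →
            δ * ((g.natDegree : ℝ) / Real.log g.natDegree) ^ ((p : ℝ) / (p - 1)) *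
              (Fintype.card K : ℝ) ^ (g ^ (2 * p)).natDegree ≤
              (Fintype.card K : ℝ) ^ P.natDegree := by
  have hp := (Fact.out : p.Prime)
  have hp3 : 3 ≤ p := by
    have := hp.two_le
    omega
  have hq : 3 ≤ Fintype.card K := by
    obtain ⟨k, _, hk⟩ := FiniteField.card K p
    rw [hk]
    exact hp3.trans (Nat.le_self_pow k.ne_zero p)
  have hq' : (3 : ℝ) ≤ Fintype.card K := by exact_mod_cast hq
  obtain ⟨N₀, hN₀⟩ := params (Fintype.card K) p hq hp3
  have hδ : (0 : ℝ) < (1 / (8 * (p : ℝ) * (Fintype.card K : ℝ) ^ (p - 1))) ^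
      ((p : ℝ) / (p - 1)) := by
    have : (0 : ℝ) < p := by exact_mod_cast hp.pos
    positivity
  refine ⟨_, hδ, N₀, fun g h hg hgN hh hrough hcase => ?_⟩
  obtain ⟨N, hN⟩ : ∃ N, g.natDegree = N := ⟨_, rfl⟩
  rw [hN] at hgN
  obtain ⟨L, t, a1, a2, a3, a4, a5, a6, a7, a8, a9⟩ := hN₀ N hgN
  obtain ⟨A, hA⟩ : ∃ A : K[X], A = wL K L * dprod K p (p * t) := ⟨_, rfl⟩
  have hA0 : A ≠ 0 := hA ▸ mul_ne_zero (deg K L).1.ne_zero (dprod_ne p (p * t))
  have hAL : ∀ a : K[X], a ≠ 0 → a.natDegree ≤ L → a ∣ A := fun a ha haL =>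
    hA ▸ (lcm K L a ha haL).mul_right _
  have hAD : ∀ u : K[X], u.natDegree ≤ p * t → derivative u ≠ 0 → derivative u ∣ A :=
    fun u hu hu0 => hA ▸ (dvd_dprod p (p * t) u hu hu0).mul_left _
  -- the degree of `A`
  have hd1 : 8 * (wL K L).natDegree ≤ N := by
    have h1 := (deg K L).2
    have h2 : (wL K L).natDegree * 2 ≤ (wL K L).natDegree * (Fintype.card K - 1) :=
      Nat.mul_le_mul_left _ (by omega)
    omega
  have hd2 : 8 * (dprod K p (p * t)).natDegree ≤ N := by
    have h1 := deg_dprod (K := K) p (p * t)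
    rw [card_idx p t hp.pos] at h1
    have h2 : Fintype.card K ^ ((p - 1) * t) * (p * t - 1) ≤
        p * t * Fintype.card K ^ ((p - 1) * t) := by
      rw [mul_comm]
      exact Nat.mul_le_mul_right _ (Nat.sub_le _ _)
    omega
  have hd3 : 4 * A.natDegree ≤ N := by
    rw [hA, natDegree_mul (deg K L).1.ne_zero (dprod_ne p (p * t))]
    omega
  -- the primes of `g`
  have hr : ∀ τ : K[X], Irreducible τ → τ ∣ g → ¬ τ ∣ A ∨ τ ^ 2 ∣ h := by
    intro τ hτ hτg
    rcases hrough τ hτ hτg with h0 | h0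
    swap
    · exact Or.inr h0
    refine Or.inl fun hdv => ?_
    have h1 : τ.natDegree ≤ 2 * L := by
      rw [hA] at hdv
      rcases hτ.prime.dvd_or_dvd hdv with h2 | h2
      · by_contra h3
        have h4 := coprime_wL L τ hτ.ne_zero fun s hs hsτ => by
          have h5 : Associated s τ := (hs.dvd_irreducible_iff_associated hτ).1 hsτ
          have h6 : s.natDegree = τ.natDegree := by
            obtain ⟨u, hu⟩ := h5
            rw [← hu, natDegree_mul hs.ne_zero u.ne_zero, natDegree_eq_zero_of_isUnit u.isUnit,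
              add_zero]
          omega
        exact hτ.not_isUnit (h4.isUnit_of_dvd' dvd_rfl h2)
      · have h3 := deg_of_dvd_dprod p (p * t) τ hτ h2
        omega
    rw [hN] at h0
    have h2 : Fintype.card K ^ τ.natDegree ≤ Fintype.card K ^ (2 * L) :=
      Nat.pow_le_pow_right (by omega) h1
    have h3 : Fintype.card K ^ L < N := by
      have h4 : Fintype.card K ^ L ≤ Fintype.card K ^ (L + 1) :=
        Nat.pow_le_pow_right (by omega) (by omega)
      have h5 : 0 < Fintype.card K ^ (L + 1) := by positivity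
      omega
    have h4 : Fintype.card K ^ (2 * L) < N ^ 2 := by
      rw [mul_comm, pow_mul]
      exact Nat.pow_lt_pow_left h3 two_ne_zero
    omega
  obtain ⟨s, hs⟩ : ∃ s, A.natDegree + (L + 5 + L) + (L + 1) + s + L + 1 = N :=
    ⟨N - (A.natDegree + (L + 5 + L) + (L + 1) + L + 1), by omega⟩
  have hs2 : N ≤ 2 * s := by omega
  obtain ⟨C, hC, hC2⟩ := clsp (s₁ := s) (n := L + 5) p hp2 hg hA0 hAL hAD a3 hh hr (by omega)
    (by omega) (by omega) (by omega) hcase
  refine ⟨C, ?_, fun c hc => ?_⟩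
  · rw [hC, hN, ← pow_mul]
    exact Nat.pow_le_pow_right (by omega) (by omega)
  · obtain ⟨h6, h7, h8⟩ := hC2 c hc
    refine ⟨h6, h7, fun P hP hdv => ?_⟩
    have h9 := h8 P hP hdv
    have h10 := log_bound (Fintype.card K) p hq hp3 N L t a1 a7 a8
    rw [hg.natDegree_pow, hN]
    rw [hN] at h9
    refine (mul_le_mul_of_nonneg_right h10 (by positivity)).trans ?_
    rw [← pow_add]
    exact pow_le_pow_right₀ (by linarith) (by omega)

end Pool.Agent.Ffp
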