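import Pool.Agent.Ff2.Final

/-!
Parity of the number of irreducible factors over a finite field of odd characteristic (Stickelberger).
-/

set_option autoImplicit false

namespace Pool.Agent.Ffp

open Polynomial Pool.Agent.Ff2

/-- The parity datum: `s` is the sign by which Frobenius acts on a square root of the
discriminant. -/
def ParO (K E : Type) [Field K] [Fintype K] [Field E] [Algebra K E] (B : K[X]) (N : ℕ)
    (s : E) : Prop :=
  ∃ z : E, z ≠ 0 ∧ z ^ 2 = algebraMap K E ((-1) ^ (N * (N - 1) / 2) *
    resultant B (derivative B) N (N - 1)) ∧ z ^ Fintype.card K = s * z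

theorem par_perm (K : Type) [Field K] [Fintype K] (E : Type) [Field E] [Algebra K E]
    (B : K[X]) (N : ℕ) (x : Fin N → E)
    (hx : B.map (algebraMap K E) = ∏ j : Fin N, (X - C (x j))) (hinj : Function.Injective x)
    (σ : Equiv.Perm (Fin N)) (hσ : ∀ i, x i ^ Fintype.card K = x (σ i)) :
    ParO K E B N (((Equiv.Perm.sign σ : ℤˣ) : ℤ) : E) := by
  refine ⟨(Matrix.vandermonde x).det, Matrix.det_vandermonde_ne_zero_iff.mpr hinj, ?_, ?_⟩
  · have h1 : algebraMap K E (resultant B (derivative B) N (N - 1)) =
        (-1) ^ (N * (N - 1) / 2) * (∏ i : Fin N, ∏ j ∈ Finset.Ioi i, (x j - x i)) ^ 2 := by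
      rw [← resultant_map_map, ← derivative_map, hx, ← prod_off_diag, resultant_prodX]
      · exact Finset.prod_congr rfl fun i _ => eval_deriv_prodX x i
      · refine (natDegree_derivative_le _).trans ?_
        rw [natDegree_prodX]
    rw [map_mul, map_pow, map_neg, map_one, h1, Matrix.det_vandermonde, ← mul_assoc, ← mul_pow]
    norm_num
  · have hφ : ∀ y : E, y ^ Fintype.card K = (FiniteField.frobeniusAlgHom K E) y := by
      intro y
      simp
    rw [hφ, AlgHom.map_det]
    have h2 : (FiniteField.frobeniusAlgHom K E).mapMatrix (Matrix.vandermonde x) =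
        (Matrix.vandermonde x).submatrix σ id := by
      ext i j
      simp only [AlgHom.mapMatrix_apply, Matrix.map_apply, Matrix.vandermonde_apply, map_pow,
        Matrix.submatrix_apply, id_eq]
      rw [← hφ, hσ]
    rw [h2, Matrix.det_permute]

/-- Parity of an irreducible polynomial. -/
theorem par_irr (K : Type) [Field K] [Fintype K] (E : Type) [Field E] [Algebra K E]
    [IsAlgClosed E] (F : K[X]) (N : ℕ) (hF : F.Monic) (hi : Irreducible F)
    (hN : F.natDegree = N) : ParO K E F N ((-1) ^ (N - 1)) := by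
  obtain ⟨x, hx, hxi, hxf⟩ := frob K E F N hF hi hN
  have h := par_perm K E F N x hx hxi (finRotate N) hxf
  rw [sign_finRotate] at h
  push_cast at h
  exact h

/-- Parity of a product of two coprime irreducible polynomials. -/
theorem par_two (K : Type) [Field K] [Fintype K] (E : Type) [Field E] [Algebra K E]
    [IsAlgClosed E] (F G : K[X]) (m n : ℕ) (hF : F.Monic) (hG : G.Monic) (hi : Irreducible F)
    (hj : Irreducible G) (hc : IsCoprime F G) (hm : F.natDegree = m) (hn : G.natDegree = n) :
    ParO K E (F * G) (m + n) ((-1) ^ (m + n)) := by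
  obtain ⟨x, hx, hxi, hxf⟩ := frob K E F m hF hi hm
  obtain ⟨y, hy, hyi, hyf⟩ := frob K E G n hG hj hn
  have hm1 : 1 ≤ m := hm ▸ hi.natDegree_pos
  have hn1 : 1 ≤ n := hn ▸ hj.natDegree_pos
  have hne : ∀ i j, x i ≠ y j := by
    intro i j h
    have h1 : (F.map (algebraMap K E)).eval (x i) = 0 := by
      rw [hx, eval_prod]
      exact Finset.prod_eq_zero (Finset.mem_univ i) (by simp)
    have h2 : (G.map (algebraMap K E)).eval (x i) = 0 := by
      rw [hy, eval_prod]
      exact Finset.prod_eq_zero (Finset.mem_univ j) (by simp [h])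
    obtain ⟨a, b, hab⟩ := hc
    have h3 := congrArg (fun p : K[X] => (p.map (algebraMap K E)).eval (x i)) hab
    simp only [Polynomial.map_add, Polynomial.map_mul, eval_add, eval_mul, h1, h2, mul_zero,
      add_zero, Polynomial.map_one, eval_one] at h3
    exact zero_ne_one h3
  set e : Fin m ⊕ Fin n ≃ Fin (m + n) := finSumFinEquiv with he
  set s : Fin (m + n) → E := Sum.elim x y ∘ e.symm with hs
  set σ : Equiv.Perm (Fin (m + n)) :=
    e.permCongr (Equiv.Perm.sumCongr (finRotate m) (finRotate n)) with hσ
  have hsig : Equiv.Perm.sign σ = (-1) ^ (m + n) := by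
    rw [hσ, Equiv.Perm.sign_permCongr, Equiv.Perm.sign_sumCongr, sign_finRotate, sign_finRotate,
      ← pow_add]
    obtain ⟨a, rfl⟩ : ∃ a, m = a + 1 := ⟨m - 1, by omega⟩
    obtain ⟨b, rfl⟩ : ∃ b, n = b + 1 := ⟨n - 1, by omega⟩
    rw [Nat.add_sub_cancel, Nat.add_sub_cancel, show a + 1 + (b + 1) = a + b + 2 by ring,
      pow_add _ (a + b) 2]
    simp
  have hp : (F * G).map (algebraMap K E) = ∏ j : Fin (m + n), (X - C (s j)) := by
    rw [Polynomial.map_mul, hx, hy]
    have h1 : ∏ j : Fin (m + n), (X - C (s j)) =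
        ∏ j : Fin m ⊕ Fin n, (X - C (Sum.elim x y j)) := by
      refine (Fintype.prod_equiv e _ _ fun j => ?_).symm
      rw [hs, Function.comp_apply, Equiv.symm_apply_apply]
    rw [h1, Fintype.prod_sum_type]
    rfl
  have hsi : Function.Injective s := by
    apply Function.Injective.comp _ e.symm.injective
    rintro (i | i) (j | j) h
    · exact congrArg Sum.inl (hxi h)
    · exact absurd h (hne i j)
    · exact absurd h.symm (hne j i)
    · exact congrArg Sum.inr (hyi h)
  have hsf : ∀ i, s i ^ Fintype.card K = s (σ i) := by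
    intro i
    obtain ⟨j, rfl⟩ := e.surjective i
    rw [hσ, hs, Function.comp_apply, Function.comp_apply, Equiv.permCongr_apply,
      Equiv.symm_apply_apply, Equiv.symm_apply_apply]
    rcases j with j | j
    · exact hxf j
    · exact hyf j
  have h := par_perm K E (F * G) (m + n) s hp hsi σ hsf
  rw [hsig] at h
  push_cast at h
  exact h

end Pool.Agent.Ffp
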