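import Pool.Agent.Ffp.Main

/-!
The powers of a fixed polynomial in odd characteristic.
-/

set_option autoImplicit false

namespace Pool.Agent.Ffp

open Polynomial Pool.Agent.Ff2 Pool.Agent.Ff3 Pool.Agent.Ff4

/-- `x / log x` for `x = D d` and `n ≤ (4 p + 1) D`. -/
theorem div_log_le (D d n m : ℕ) (hD : 3 ≤ D) (hd : 0 < d) (hDn : D ≤ n) (hn : n ≤ m * D)
    (hm : 0 < m) :
    (1 / (m : ℝ)) * ((n : ℝ) / Real.log n) ≤ ((D * d : ℕ) : ℝ) / Real.log ((D * d : ℕ) : ℝ) := by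
  have hD' : (3 : ℝ) ≤ D := by exact_mod_cast hD
  have hd' : (1 : ℝ) ≤ d := by exact_mod_cast hd
  have hm' : (0 : ℝ) < m := by exact_mod_cast hm
  have hDn' : (D : ℝ) ≤ n := by exact_mod_cast hDn
  have hn' : (n : ℝ) ≤ m * D := by exact_mod_cast hn
  have hDd : (D : ℝ) ≤ ((D * d : ℕ) : ℝ) := by
    push_cast
    nlinarith
  have he : Real.exp 1 ≤ 3 := by linarith [Real.exp_one_lt_d9]
  have hlD : 0 < Real.log D := Real.log_pos (by linarith)
  have hln : 0 < Real.log n := Real.log_pos (by linarith)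
  have hlDd : 0 < Real.log ((D * d : ℕ) : ℝ) := Real.log_pos (by linarith)
  have h1 := Real.log_div_self_antitoneOn (show (D : ℝ) ∈ {x : ℝ | Real.exp 1 ≤ x} by
    exact he.trans hD') (show ((D * d : ℕ) : ℝ) ∈ {x : ℝ | Real.exp 1 ≤ x} by
    exact (he.trans hD').trans hDd) hDd
  have h2 : (D : ℝ) / Real.log D ≤ ((D * d : ℕ) : ℝ) / Real.log ((D * d : ℕ) : ℝ) := by
    have h3 : Real.log ((D * d : ℕ) : ℝ) / ((D * d : ℕ) : ℝ) ≤ Real.log D / D := h1
    rw [div_le_div_iff₀ (by linarith) (by linarith)] at h3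
    rw [div_le_div_iff₀ hlD hlDd]
    linarith
  refine le_trans ?_ h2
  have h4 : (D : ℝ) / Real.log n ≤ D / Real.log D :=
    div_le_div_of_nonneg_left (by linarith) hlD (Real.log_le_log (by linarith) hDn')
  refine le_trans ?_ h4
  rw [div_mul_div_comm, one_mul, div_le_div_iff₀ (by positivity) hln]
  nlinarith

/-- A crude bound. -/
theorem crude (p n n0 : ℕ) (hp : 3 ≤ p) (hn : 2 ≤ n) (hn0 : n ≤ n0) :
    ((n : ℝ) / Real.log n) ^ ((p : ℝ) / (p - 1)) ≤ (2 * (n0 : ℝ)) ^ 2 := by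
  have hp' : (3 : ℝ) ≤ p := by exact_mod_cast hp
  have hn' : (2 : ℝ) ≤ n := by exact_mod_cast hn
  have hn0' : (n : ℝ) ≤ n0 := by exact_mod_cast hn0
  have h1 : (1 : ℝ) / 2 ≤ Real.log n := by
    have := Real.log_two_gt_d9
    have h2 := Real.log_le_log (by norm_num) hn'
    linarith
  have h2 : (n : ℝ) / Real.log n ≤ 2 * n0 := by
    rw [div_le_iff₀ (by linarith)]
    nlinarith
  have h3 : (0 : ℝ) ≤ (n : ℝ) / Real.log n := by
    apply div_nonneg <;> linarith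
  have h4 : (0 : ℝ) ≤ (p : ℝ) / (p - 1) := by
    apply div_nonneg <;> linarith
  have h5 : (p : ℝ) / (p - 1) ≤ 2 := by
    rw [div_le_iff₀ (by linarith)]
    linarith
  refine (Real.rpow_le_rpow h3 h2 h4).trans ?_
  rw [← Real.rpow_natCast]
  refine Real.rpow_le_rpow_of_exponent_le (by linarith) ?_
  push_cast
  exact h5

variable {K : Type} [Field K] [Fintype K]

/-- The powers of a fixed polynomial. -/
theorem powersp (p : ℕ) [Fact p.Prime] [CharP K p] (hp2 : p ≠ 2) (f : K[X])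
    (hf : 0 < f.natDegree) :
    ∃ δ : ℝ, 0 < δ ∧ ∀ n : ℕ, 2 ≤ n → ∃ c : K[X], IsCoprime c (f ^ n) ∧
      ∀ P : K[X], Irreducible P → f ^ n ∣ P - c →
        δ * ((n : ℝ) / Real.log n) ^ ((p : ℝ) / (p - 1)) *
          (Fintype.card K : ℝ) ^ (f ^ n).natDegree ≤ (Fintype.card K : ℝ) ^ P.natDegree := by
  have hpp := (Fact.out : p.Prime)
  have hp3 : 3 ≤ p := by
    have := hpp.two_le
    omega
  have hp' : (3 : ℝ) ≤ p := by exact_mod_cast hp3
  have hq : 2 ≤ Fintype.card K := Fintype.one_lt_card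
  have hq' : (2 : ℝ) ≤ Fintype.card K := by exact_mod_cast hq
  obtain ⟨δ₀, hδ₀, N₀, hN₀⟩ := mainp (K := K) p hp2
  have hf0 : f ≠ 0 := by
    rintro rfl
    rw [natDegree_zero] at hf
    exact lt_irrefl _ hf
  have hlc : f.leadingCoeff ≠ 0 := leadingCoeff_ne_zero.2 hf0
  obtain ⟨f₀, hf₀⟩ : ∃ f₀ : K[X], f₀ = C (f.leadingCoeff⁻¹) * f := ⟨_, rfl⟩
  have hf₀m : f₀.Monic := hf₀ ▸ monic_mul hf0
  have hff : f = C f.leadingCoeff * f₀ := by
    rw [hf₀, ← mul_assoc, ← C_mul, mul_inv_cancel₀ hlc, C_1, one_mul]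
  obtain ⟨d, hd⟩ : ∃ d, f.natDegree = d := ⟨_, rfl⟩
  have hf₀d : f₀.natDegree = d := by
    rw [hf₀, natDegree_C_mul (inv_ne_zero hlc), hd]
  rw [hd] at hf
  obtain ⟨π, hπ, hπf⟩ : ∃ π : K[X], Irreducible π ∧ π ∣ f₀ := by
    refine WfDvdMonoid.exists_irreducible_factor (fun hu => ?_) hf₀m.ne_zero
    have := natDegree_eq_zero_of_isUnit hu
    omega
  obtain ⟨n0, hn0⟩ : ∃ n0, n0 = 2 * p * (N₀ + 10) := ⟨_, rfl⟩
  have hn0' : (0 : ℝ) < n0 := by
    have : 0 < n0 := by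
      rw [hn0]
      exact Nat.mul_pos (by omega) (by omega)
    exact_mod_cast this
  have hee : (0 : ℝ) ≤ (p : ℝ) / (p - 1) := by
    apply div_nonneg <;> linarith
  obtain ⟨η, hη⟩ : ∃ η : ℝ, η = (1 / ((4 * p + 1 : ℕ) : ℝ)) ^ ((p : ℝ) / (p - 1)) := ⟨_, rfl⟩
  have hη0 : 0 < η := by
    rw [hη]
    positivity
  have hδ1 : 0 < δ₀ * η / (Fintype.card K : ℝ) ^ ((2 * p + 1) * d) := by positivity
  have hδ2 : 0 < 1 / ((2 * (n0 : ℝ)) ^ 2 * (Fintype.card K : ℝ) ^ (n0 * d)) := by positivity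
  refine ⟨min (δ₀ * η / (Fintype.card K : ℝ) ^ ((2 * p + 1) * d))
    (1 / ((2 * (n0 : ℝ)) ^ 2 * (Fintype.card K : ℝ) ^ (n0 * d))), lt_min hδ1 hδ2, ?_⟩
  intro n hn
  have hnn : (0 : ℝ) ≤ (n : ℝ) / Real.log n := by
    apply div_nonneg (by positivity)
    exact Real.log_nonneg (by
      have : 1 ≤ n := by omega
      exact_mod_cast this)
  rw [natDegree_pow, hd]
  rcases lt_or_ge n n0 with h | h
  · refine ⟨1, isCoprime_one_left, ?_⟩
    intro P _ _
    have h1 : (1 : ℝ) ≤ (Fintype.card K : ℝ) ^ P.natDegree := one_le_pow₀ (by linarith)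
    refine le_trans ?_ h1
    have h2 : ((n : ℝ) / Real.log n) ^ ((p : ℝ) / (p - 1)) * (Fintype.card K : ℝ) ^ (n * d) ≤
        (2 * (n0 : ℝ)) ^ 2 * (Fintype.card K : ℝ) ^ (n0 * d) :=
      mul_le_mul (crude p n n0 hp3 hn h.le)
        (pow_le_pow_right₀ (by linarith) (Nat.mul_le_mul_right _ h.le)) (by positivity)
        (by positivity)
    have h3 : (0 : ℝ) < (2 * (n0 : ℝ)) ^ 2 * (Fintype.card K : ℝ) ^ (n0 * d) := by positivity
    have h4 : (0 : ℝ) ≤ ((n : ℝ) / Real.log n) ^ ((p : ℝ) / (p - 1)) *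
        (Fintype.card K : ℝ) ^ (n * d) := by positivity
    calc min (δ₀ * η / (Fintype.card K : ℝ) ^ ((2 * p + 1) * d))
          (1 / ((2 * (n0 : ℝ)) ^ 2 * (Fintype.card K : ℝ) ^ (n0 * d))) *
          ((n : ℝ) / Real.log n) ^ ((p : ℝ) / (p - 1)) * (Fintype.card K : ℝ) ^ (n * d)
        = min (δ₀ * η / (Fintype.card K : ℝ) ^ ((2 * p + 1) * d))
          (1 / ((2 * (n0 : ℝ)) ^ 2 * (Fintype.card K : ℝ) ^ (n0 * d))) *
          (((n : ℝ) / Real.log n) ^ ((p : ℝ) / (p - 1)) * (Fintype.card K : ℝ) ^ (n * d)) := by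
          ring
      _ ≤ 1 / ((2 * (n0 : ℝ)) ^ 2 * (Fintype.card K : ℝ) ^ (n0 * d)) *
            ((2 * (n0 : ℝ)) ^ 2 * (Fintype.card K : ℝ) ^ (n0 * d)) :=
          mul_le_mul (min_le_right _ _) h2 h4 hδ2.le
      _ = 1 := one_div_mul_cancel h3.ne'
  · obtain ⟨D, r, h1, h2, h3⟩ : ∃ D r : ℕ, n = 2 * p * D + r ∧ 2 ≤ r ∧ r ≤ 2 * p + 1 := by
      refine ⟨(n - 2) / (2 * p), (n - 2) % (2 * p) + 2, ?_, by omega, ?_⟩
      · have := Nat.div_add_mod (n - 2) (2 * p)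
        omega
      · have := Nat.mod_lt (n - 2) (show 0 < 2 * p by omega)
        omega
    have hDN : N₀ + 3 ≤ D := by
      by_contra h4
      have h5 : 2 * p * D ≤ 2 * p * (N₀ + 2) := Nat.mul_le_mul_left _ (by omega)
      have h6 : 2 * p * (N₀ + 10) = 2 * p * (N₀ + 2) + 2 * p * 8 := by ring
      omega
    have hDn : D ≤ n := by
      have : 1 * D ≤ 2 * p * D := Nat.mul_le_mul_right _ (by omega)
      omega
    have hnD : n ≤ (4 * p + 1) * D := by
      have h4 : (2 * p + 1) * 1 ≤ (2 * p + 1) * D := Nat.mul_le_mul_left _ (by omega)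
      have h5 : (4 * p + 1) * D = 2 * p * D + (2 * p + 1) * D := by ring
      omega
    obtain ⟨g, hg⟩ : ∃ g : K[X], g = f₀ ^ D := ⟨_, rfl⟩
    obtain ⟨e, he⟩ : ∃ e : K[X], e = C (f.leadingCoeff ^ n) * f₀ ^ r := ⟨_, rfl⟩
    have hgm : g.Monic := hg ▸ hf₀m.pow D
    have hgd : g.natDegree = D * d := by
      rw [hg, hf₀m.natDegree_pow, hf₀d]
    have hgN : N₀ ≤ g.natDegree := by
      rw [hgd]
      exact (show N₀ ≤ D by omega).trans (Nat.le_mul_of_pos_right _ hf)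
    have he0 : e ≠ 0 := by
      rw [he]
      exact mul_ne_zero (C_ne_zero.2 (pow_ne_zero _ hlc)) (hf₀m.pow r).ne_zero
    have heg : e * g ^ (2 * p) = f ^ n := by
      conv_rhs => rw [hff]
      rw [he, hg, mul_pow, C_pow, mul_assoc, ← pow_mul, ← pow_add, h1]
      congr 2
      ring
    have hsq : ∀ t : K[X], t ∣ f₀ → t ^ 2 ∣ e := by
      intro t ht
      rw [he]
      exact ((pow_dvd_pow t h2).trans (pow_dvd_pow_of_dvd ht r)).mul_left _
    have hrough : ∀ t : K[X], Irreducible t → t ∣ g →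
        g.natDegree ^ 2 ≤ Fintype.card K ^ t.natDegree ∨ t ^ 2 ∣ e := by
      intro t ht htg
      rw [hg] at htg
      exact Or.inr (hsq t (ht.prime.dvd_of_dvd_pow htg))
    have hns : ¬ Squarefree e := by
      intro h4
      have h5 := hsq π hπf
      rw [sq] at h5
      exact hπ.not_isUnit (h4 π h5)
    obtain ⟨C, hC, hC2⟩ := hN₀ g e hgm hgN he0 hrough (Or.inr hns)
    have hCne : C.Nonempty := by
      rw [← Finset.card_pos]
      by_contra h4
      have h5 : C.card = 0 := by omega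
      rw [h5] at hC
      have h6 : 0 < Fintype.card K ^ g.natDegree := by positivity
      omega
    obtain ⟨c, hc⟩ := hCne
    obtain ⟨_, h5, h6⟩ := hC2 c hc
    rw [heg] at h5 h6
    refine ⟨c, h5, ?_⟩
    intro P hP hdv
    have h7 := h6 P hP hdv
    rw [hgm.natDegree_pow, hgd] at h7
    have h8 := div_log_le D d n (4 * p + 1) (by omega) hf hDn hnD (by omega)
    have h9 : η * ((n : ℝ) / Real.log n) ^ ((p : ℝ) / (p - 1)) ≤
        (((D * d : ℕ) : ℝ) / Real.log ((D * d : ℕ) : ℝ)) ^ ((p : ℝ) / (p - 1)) := by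
      rw [hη, ← Real.mul_rpow (by positivity) hnn]
      exact Real.rpow_le_rpow (by positivity) h8 hee
    have hqr : (Fintype.card K : ℝ) ^ (n * d) ≤
        (Fintype.card K : ℝ) ^ ((2 * p + 1) * d) * (Fintype.card K : ℝ) ^ (2 * p * (D * d)) := by
      rw [← pow_add]
      refine pow_le_pow_right₀ (by linarith) ?_
      calc n * d ≤ (2 * p + 1 + 2 * p * D) * d := Nat.mul_le_mul_right _ (by omega)
        _ = (2 * p + 1) * d + 2 * p * (D * d) := by ring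
    have hQ : (0 : ℝ) < (Fintype.card K : ℝ) ^ ((2 * p + 1) * d) := by positivity
    have hE : (0 : ℝ) ≤ ((n : ℝ) / Real.log n) ^ ((p : ℝ) / (p - 1)) := Real.rpow_nonneg hnn _
    calc min (δ₀ * η / (Fintype.card K : ℝ) ^ ((2 * p + 1) * d))
          (1 / ((2 * (n0 : ℝ)) ^ 2 * (Fintype.card K : ℝ) ^ (n0 * d))) *
          ((n : ℝ) / Real.log n) ^ ((p : ℝ) / (p - 1)) * (Fintype.card K : ℝ) ^ (n * d)
        ≤ δ₀ * η / (Fintype.card K : ℝ) ^ ((2 * p + 1) * d) *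
          ((n : ℝ) / Real.log n) ^ ((p : ℝ) / (p - 1)) *
            ((Fintype.card K : ℝ) ^ ((2 * p + 1) * d) *
              (Fintype.card K : ℝ) ^ (2 * p * (D * d))) := by
          refine mul_le_mul ?_ hqr (by positivity) (by positivity)
          exact mul_le_mul_of_nonneg_right (min_le_left _ _) hE
      _ = δ₀ * (η * ((n : ℝ) / Real.log n) ^ ((p : ℝ) / (p - 1))) *
            (Fintype.card K : ℝ) ^ (2 * p * (D * d)) := by
          field_simp
      _ ≤ δ₀ * (((D * d : ℕ) : ℝ) / Real.log ((D * d : ℕ) : ℝ)) ^ ((p : ℝ) / (p - 1)) *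
            (Fintype.card K : ℝ) ^ (2 * p * (D * d)) :=
          mul_le_mul_of_nonneg_right (mul_le_mul_of_nonneg_left h9 hδ₀.le) (by positivity)
      _ ≤ (Fintype.card K : ℝ) ^ P.natDegree := h7

end Pool.Agent.Ffp
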