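import Pool.Agent.Ffp.Core
import Pool.Agent.Ffp.Lem2

/-!
All members of the progression of small degree are reducible, odd characteristic.
-/

set_option autoImplicit false

namespace Pool.Agent.Ffp

open Polynomial Pool.Agent.Ff2 Pool.Agent.Ff4

theorem redp {K : Type} [Field K] [Fintype K] (p : ℕ) [Fact p.Prime] [CharP K p] (hp2 : p ≠ 2)
    {L D : ℕ} {g w π fs r : K[X]} (hg : g.Monic) (hw0 : w ≠ 0)
    (hwL : ∀ a : K[X], a ≠ 0 → a.natDegree ≤ L → IsCoprime a π → IsCoprime a r → a ∣ w)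
    (hwD : ∀ u : K[X], u.natDegree ≤ D → derivative u ≠ 0 → IsCoprime (derivative u) π →
      IsCoprime (derivative u) r → derivative u ∣ w)
    (hr1 : IsCoprime r (π * fs)) (hr2 : IsCoprime r (derivative (π * fs)))
    (hdeg : w.natDegree + L + 1 ≤ g.natDegree)
    (hp : (π = 1 ∧ Odd (g.natDegree * ((Fintype.card K - 1) / 2))) ∨
      (Irreducible π ∧ Even (g.natDegree * ((Fintype.card K - 1) / 2)) ∧ ¬ IsUnit fs))
    (hpf : IsCoprime π fs) (hB : (π * fs).natDegree ≤ D) (hDL : D ≤ 2 * L + 1) :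
    ¬ Irreducible (w ^ p + π * fs * g ^ (2 * p)) := by
  intro hirr
  have hpp := (Fact.out : p.Prime)
  have hp0 : π ≠ 0 := by
    rcases hp with ⟨h, _⟩ | ⟨h, _⟩
    · rw [h]; exact one_ne_zero
    · exact h.ne_zero
  by_cases hfs0 : fs = 0
  · rw [hfs0, mul_zero, zero_mul, add_zero] at hirr
    exact not_irreducible_pow hpp.ne_one hirr
  obtain ⟨f, hf⟩ : ∃ f, f = π * fs := ⟨_, rfl⟩
  rw [← hf] at hirr hB hr1 hr2
  have hf0 : f ≠ 0 := hf ▸ mul_ne_zero hp0 hfs0
  by_cases hfd : derivative f = 0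
  · obtain ⟨f0, hf0'⟩ := pow_of_deriv p hfd
    have hsq : w ^ p + f * g ^ (2 * p) = (w + f0 * g ^ 2) ^ p := by
      rw [add_pow_char, mul_pow, ← pow_mul, ← hf0']
    rw [hsq] at hirr
    exact not_irreducible_pow hpp.ne_one hirr
  -- the degree of the polynomial
  have hFdeg : (w ^ p + f * g ^ (2 * p)).natDegree = f.natDegree + 2 * p * g.natDegree :=
    deg_F hpp.pos hg hf0 (by omega)
  have hgpos : g.natDegree ≤ 2 * p * g.natDegree :=
    Nat.le_mul_of_pos_left _ (Nat.mul_pos two_pos hpp.pos)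
  have hfpos : 1 ≤ f.natDegree := by
    by_contra h
    have h0 : f.natDegree = 0 := by omega
    obtain ⟨c, hc⟩ := natDegree_eq_zero.1 h0
    apply hfd
    rw [← hc, derivative_C]
  -- factors of small degree
  have key : ∀ a b : K[X], fs = a * b → ¬ IsUnit a → a.natDegree ≤ L → False := by
    intro a b hab ha haL
    have ha0 : a ≠ 0 := by
      rintro rfl
      exact hfs0 (by rw [hab, zero_mul])
    have hac : IsCoprime a π := by
      rw [hab] at hpf
      exact hpf.of_mul_right_left.symm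
    have har : IsCoprime a r := by
      rw [hf, hab] at hr1
      exact (hr1.of_mul_right_right.of_mul_right_left).symm
    have h1 : a ∣ w := hwL a ha0 haL hac har
    have h2 : a ∣ w ^ p + f * g ^ (2 * p) := by
      refine dvd_add (dvd_pow h1 hpp.ne_zero) ?_
      rw [hf, hab]
      exact ⟨π * b * g ^ (2 * p), by ring⟩
    obtain ⟨c, hc⟩ := h2
    rcases hirr.isUnit_or_isUnit hc with h3 | h3
    · exact ha h3
    · have h4 := hFdeg
      have hc0 : c ≠ 0 := h3.ne_zero
      rw [hc, natDegree_mul ha0 hc0, natDegree_eq_zero_of_isUnit h3] at h4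
      omega
  have hdf : π.natDegree + fs.natDegree = f.natDegree := by
    rw [hf, natDegree_mul hp0 hfs0]
  have hfi : ¬ IsUnit fs → Irreducible fs := by
    intro hfu
    refine ⟨hfu, fun a b hab => ?_⟩
    by_contra hc
    rw [not_or] at hc
    have hsum : a.natDegree + b.natDegree = fs.natDegree := by
      have ha0 : a ≠ 0 := by
        rintro rfl
        exact hfs0 (by rw [hab, zero_mul])
      have hb0 : b ≠ 0 := by
        rintro rfl
        exact hfs0 (by rw [hab, mul_zero])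
      rw [hab, natDegree_mul ha0 hb0]
    rcases le_or_gt a.natDegree L with h | h
    · exact key a b hab hc.1 h
    · exact key b a (by rw [hab, mul_comm]) hc.2 (by omega)
  -- the monic multiple
  have hlc : f.leadingCoeff ≠ 0 := leadingCoeff_ne_zero.2 hf0
  obtain ⟨ν, hν⟩ := root p (f.leadingCoeff⁻¹)
  have hνp : ν ^ p ≠ 0 := by
    rw [hν]
    exact inv_ne_zero hlc
  have hν0 : ν ≠ 0 := fun h => hνp (by rw [h, zero_pow hpp.ne_zero])
  have hCu : IsUnit (C (ν ^ p) : K[X]) := isUnit_C.2 (isUnit_iff_ne_zero.2 hνp)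
  obtain ⟨ρ, hρ⟩ : ∃ ρ : K[X], ρ = C (ν ^ p) * f := ⟨_, rfl⟩
  have hρm : ρ.Monic := by
    unfold Monic
    rw [hρ, leadingCoeff_mul, leadingCoeff_C, hν, inv_mul_cancel₀ hlc]
  have hρd : ρ.natDegree = f.natDegree := hρ ▸ natDegree_C_mul hνp
  have hfp : IsCoprime (derivative f) π := by
    rcases hp with ⟨h, _⟩ | ⟨h, _⟩
    · rw [h]
      exact isCoprime_one_right
    · refine IsCoprime.symm ((h.coprime_iff_not_dvd).2 fun h1 => ?_)
      rw [hf, derivative_mul] at h1
      have h3 : π ∣ derivative π * fs := (dvd_add_left (dvd_mul_right _ _)).1 h1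
      have h5 : π ∣ derivative π := hpf.dvd_of_dvd_mul_right h3
      have h6 : IsCoprime π (derivative π) := PerfectField.separable_of_irreducible h
      exact h.not_isUnit (h6.isUnit_of_dvd' dvd_rfl h5)
  have hdvd : derivative f ∣ w := hwD f hB hfd hfp hr2.symm
  have hdvd' : derivative ρ ∣ C ν * w := by
    rw [hρ, derivative_C_mul]
    exact (hCu.mul_left_dvd).2 (hdvd.mul_left _)
  have hCw0 : C ν * w ≠ 0 := mul_ne_zero (C_ne_zero.2 hν0) hw0
  have hCwd : (C ν * w).natDegree = w.natDegree := natDegree_C_mul hν0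
  have hirr' : Irreducible ((C ν * w) ^ p + ρ * g ^ (2 * p)) := by
    have heq : (C ν * w) ^ p + ρ * g ^ (2 * p) = C (ν ^ p) * (w ^ p + f * g ^ (2 * p)) := by
      rw [hρ, mul_pow, C_pow]
      ring
    rw [heq]
    exact (irreducible_isUnit_mul hCu).2 hirr
  have h2E : (2 : AlgebraicClosure K) ≠ 0 := by
    have hch : CharP (AlgebraicClosure K) p :=
      charP_of_injective_algebraMap (algebraMap K (AlgebraicClosure K)).injective p
    intro h
    have h3 : ((2 : ℕ) : AlgebraicClosure K) = 0 := by exact_mod_cast h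
    rw [CharP.cast_eq_zero_iff (AlgebraicClosure K) p] at h3
    exact hp2 ((Nat.prime_dvd_prime_iff_eq hpp Nat.prime_two).1 h3)
  have hne : ∀ n : ℕ, (-1 : AlgebraicClosure K) ^ n ≠ 0 := fun n =>
    pow_ne_zero _ (neg_ne_zero.2 one_ne_zero)
  have hd' : ∀ c : AlgebraicClosure K, c ≠ 0 → c ≠ -c := by
    intro c hc h
    have h3 : 2 * c = 0 := by linear_combination h
    rcases mul_eq_zero.1 h3 with h4 | h4
    · exact h2E h4
    · exact hc h4
  rcases hp with ⟨h, ho⟩ | ⟨h, he, hu⟩
  · -- irreducible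
    have h1 : Irreducible fs := by
      apply hfi
      intro h2
      have h3 := natDegree_eq_zero_of_isUnit h2
      rw [h, natDegree_one] at hdf
      omega
    have h2 : Irreducible ρ := by
      rw [hρ, hf, h, one_mul]
      exact (irreducible_isUnit_mul hCu).2 h1
    have h3 := core K p hp2 (AlgebraicClosure K) ρ g (C ν * w) f.natDegree g.natDegree hρm hg
      hfpos hρd rfl (by omega) hdvd' hCw0 (by omega) _
      (par_irr K (AlgebraicClosure K) ρ f.natDegree hρm h2 hρd) hirr'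
    rw [ho.neg_one_pow, neg_one_mul] at h3
    exact hd' _ (hne _) h3
  · -- a product
    have h1 := hfi hu
    have hu2 : IsUnit (C (π.leadingCoeff⁻¹) : K[X]) :=
      isUnit_C.2 (isUnit_iff_ne_zero.2 (inv_ne_zero (leadingCoeff_ne_zero.2 hp0)))
    have hu3 : IsUnit (C (fs.leadingCoeff⁻¹) : K[X]) :=
      isUnit_C.2 (isUnit_iff_ne_zero.2 (inv_ne_zero (leadingCoeff_ne_zero.2 hfs0)))
    have hρe : ρ = (C (π.leadingCoeff⁻¹) * π) * (C (fs.leadingCoeff⁻¹) * fs) := by
      rw [hρ, hν, hf, leadingCoeff_mul, mul_inv, C_mul]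
      ring
    have h2 := par_two K (AlgebraicClosure K) (C (π.leadingCoeff⁻¹) * π)
      (C (fs.leadingCoeff⁻¹) * fs) π.natDegree fs.natDegree (monic_mul hp0) (monic_mul hfs0)
      ((irreducible_isUnit_mul hu2).2 h) ((irreducible_isUnit_mul hu3).2 h1)
      ((isCoprime_mul_units_left hu2 hu3 π fs).2 hpf)
      (natDegree_C_mul (inv_ne_zero (leadingCoeff_ne_zero.2 hp0)))
      (natDegree_C_mul (inv_ne_zero (leadingCoeff_ne_zero.2 hfs0)))
    rw [← hρe, hdf] at h2
    have h3 := core K p hp2 (AlgebraicClosure K) ρ g (C ν * w) f.natDegree g.natDegree hρm hg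
      hfpos hρd rfl (by omega) hdvd' hCw0 (by omega) _ h2 hirr'
    rw [he.neg_one_pow, one_mul] at h3
    obtain ⟨d, hd⟩ : ∃ d, f.natDegree = d + 1 := ⟨f.natDegree - 1, by omega⟩
    rw [hd, Nat.add_sub_cancel, pow_succ, mul_neg_one] at h3
    exact hd' _ (hne _) h3

end Pool.Agent.Ffp
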